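import Pool.Agent.H239.MA.Dens

/-! The set of the integers `n`: multiples of `Q`. -/

set_option autoImplicit false
set_option linter.unusedSectionVars false

namespace Pool.Agent.H239.MA

open Finset Filter Topology
open Pool.Agent.K7.H83.MA

section

variable {r : ℕ} (c : ℕ → Fin r) (Q : ℕ)

theorem sp_full {n : ℕ} (hn : 0 < n) (h : ∀ p, p.Prime → p ∣ n → Sp c Q p) : sp c Q n = n := by
  classical
  unfold sp Pool.Agent.K7.H83.MA.ext
  conv_rhs => rw [← Nat.prod_factorization_pow_eq_self hn.ne']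
  refine Finset.prod_congr rfl fun p hp => ?_
  rw [Nat.support_factorization, Nat.mem_primeFactors] at hp
  beta_reduce
  rw [if_pos (h p hp.1 hp.2.1)]

theorem sp_Q (hQ : 0 < Q) : sp c Q Q = Q := sp_full c Q hQ fun _ _ h => Or.inr h

theorem sp_one_sp {n : ℕ} (hn : 0 < n) : sp c 1 (sp c Q n) = sp c 1 n := by
  classical
  induction n using Nat.recOnMul with
  | zero => omega
  | one => rw [sp_one]
  | prime p h =>
    rw [sp_prime c Q h]
    split_ifs with h1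
    · rfl
    · rw [sp_one, sp_prime c 1 h, if_neg]
      rintro (h2 | h2)
      · exact h1 (Or.inl h2)
      · exact h.one_lt.ne' (Nat.dvd_one.1 h2)
  | mul a b ha hb =>
    have h1 : 0 < a := Nat.pos_of_mul_pos_right hn
    have h2 : 0 < b := Nat.pos_of_mul_pos_left hn
    rw [sp_mul c Q h1 h2, sp_mul c 1 (sp_pos c Q h1) (sp_pos c Q h2), ha h1, hb h2,
      sp_mul c 1 h1 h2]

open scoped Classical in
/-- the special parts -/
noncomputable def Js (M : ℕ) : Finset ℕ :=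
  (M.divisors.filter fun s => sp c 1 s = 1 ∧ sp c Q s = s).image (fun s => Q * s)

theorem mem_Js (hQ : 0 < Q) {M : ℕ} (hM : 0 < M) {n : ℕ} (hn : 0 < n) :
    sp c Q n ∈ Js c Q M ↔ ∃ n', 0 < n' ∧ n = Q * n' ∧ sp c 1 n' = 1 ∧ sp c Q n' ∣ M := by
  classical
  unfold Js
  rw [Finset.mem_image]
  constructor
  · rintro ⟨s, hs, h1⟩
    rw [mem_filter, Nat.mem_divisors] at hs
    have h2 : Q ∣ n := (Dvd.intro _ h1).trans (sp_dvd c Q hn)
    obtain ⟨n', rfl⟩ := h2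
    have hn' : 0 < n' := Nat.pos_of_mul_pos_left hn
    rw [sp_mul c Q hQ hn', sp_Q c Q hQ] at h1
    have h3 : s = sp c Q n' := Nat.eq_of_mul_eq_mul_left hQ h1
    refine ⟨n', hn', rfl, ?_, ?_⟩
    · rw [← sp_one_sp c Q hn', ← h3]; exact hs.2.1
    · rw [← h3]; exact hs.1.1
  · rintro ⟨n', hn', rfl, h1, h2⟩
    refine ⟨sp c Q n', ?_, ?_⟩
    · rw [mem_filter, Nat.mem_divisors]
      exact ⟨⟨h2, hM.ne'⟩, by rw [sp_one_sp c Q hn', h1], sp_sp c Q hn'⟩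
    · rw [sp_mul c Q hQ hn', sp_Q c Q hQ]

/-- the set of the integers `n` -/
noncomputable def SS (M N : ℕ) : Finset ℕ := (Ioc 0 N).filter fun n => sp c Q n ∈ Js c Q M

theorem mem_SS {M N n : ℕ} : n ∈ SS c Q M N ↔ (0 < n ∧ n ≤ N) ∧ sp c Q n ∈ Js c Q M := by
  unfold SS; rw [mem_filter, mem_Ioc]

theorem SS_lab {E : Type*} [AddCommMonoid E] [NeZero Q] [NeZero (Nat.totient Q)] (M N : ℕ)
    (f : ℕ → E) :
    ∑ n ∈ SS c Q M N, f n = ∑ x ∈ Js c Q M ×ˢ (Finset.univ : Finset (GG r Q)),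
      ∑ n ∈ lab c Q N x.1 x.2, f n := by
  classical
  have hmap : ∀ n ∈ SS c Q M N, (sp c Q n, gam c Q n) ∈
      Js c Q M ×ˢ (Finset.univ : Finset (GG r Q)) := by
    intro n hn
    rw [mem_SS] at hn
    rw [mem_product]
    exact ⟨hn.2, Finset.mem_univ _⟩
  rw [← Finset.sum_fiberwise_of_maps_to hmap]
  refine Finset.sum_congr rfl fun x hx => Finset.sum_congr ?_ fun _ _ => rfl
  rw [mem_product] at hx
  ext n
  rw [mem_filter, mem_SS, mem_lab]
  constructor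
  · rintro ⟨⟨h1, _⟩, h3⟩
    exact ⟨h1, congrArg Prod.fst h3, congrArg Prod.snd h3⟩
  · rintro ⟨h1, h2, h3⟩
    exact ⟨⟨h1, by rw [h2]; exact hx.1⟩, Prod.ext h2 h3⟩

theorem GG_one (g : GG r 1) : g = 0 := by
  have h1 := GG_kill 1 one_pos g
  have h2 : Nat.totient 1 • g = (1 : ℕ) • g := congrArg (fun k : ℕ => k • g) Nat.totient_one
  rwa [h2, one_smul] at h1

open scoped Classical in
theorem SS_one {E : Type*} [AddCommMonoid E] (hQ : 0 < Q) {M : ℕ} (hM : 0 < M) (N : ℕ)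
    (f : ℕ → E) : ∑ n ∈ SS c Q M N, f n =
      ∑ n ∈ (lab c 1 (N / Q) 1 0).filter (fun n => sp c Q n ∣ M), f (Q * n) := by
  symm
  refine Finset.sum_nbij' (fun n => Q * n) (fun n => n / Q) ?_ ?_ ?_ ?_ ?_
  · intro n hn
    rw [mem_filter, mem_lab] at hn
    rw [mem_SS, mem_Js c Q hQ hM (Nat.mul_pos hQ hn.1.1.1)]
    refine ⟨⟨Nat.mul_pos hQ hn.1.1.1, ?_⟩, n, hn.1.1.1, rfl, hn.1.2.1, hn.2⟩
    exact (Nat.mul_le_mul_left Q hn.1.1.2).trans (Nat.mul_div_le N Q)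
  · intro n hn
    rw [mem_SS] at hn
    obtain ⟨n', hn', rfl, h1, h2⟩ := (mem_Js c Q hQ hM hn.1.1).1 hn.2
    rw [Nat.mul_div_cancel_left n' hQ, mem_filter, mem_lab]
    refine ⟨⟨⟨hn', ?_⟩, h1, GG_one _⟩, h2⟩
    rw [Nat.le_div_iff_mul_le hQ, mul_comm]; exact hn.1.2
  · intro n _
    exact Nat.mul_div_cancel_left n hQ
  · intro n hn
    rw [mem_SS] at hn
    obtain ⟨n', hn', rfl, h1, h2⟩ := (mem_Js c Q hQ hM hn.1.1).1 hn.2
    rw [Nat.mul_div_cancel_left n' hQ]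
  · intro n _; rfl

theorem SS_dvd (hQ : 0 < Q) {M : ℕ} (hM : 0 < M) {N n : ℕ} (hn : n ∈ SS c Q M N) : Q ∣ n := by
  rw [mem_SS] at hn
  obtain ⟨n', hn', rfl, h1, h2⟩ := (mem_Js c Q hQ hM hn.1.1).1 hn.2
  exact Dvd.intro _ rfl

theorem SS_card (hQ : 0 < Q) {M : ℕ} (hM : 0 < M) (N : ℕ) : ((SS c Q M N).card : ℝ) ≤ N / Q := by
  have h1 : SS c Q M N ⊆ (Ioc 0 N).filter fun n => Q ∣ n := by
    intro n hn
    rw [mem_filter]
    exact ⟨mem_Ioc.2 ((mem_SS c Q).1 hn).1, SS_dvd c Q hQ hM hn⟩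
  exact (Nat.cast_le.2 (Finset.card_le_card h1)).trans (cnt_dvd N Q)

/-- elements of the trivial label are congruent to one -/
theorem lab_mod {N m : ℕ} (hm : m ∈ lab c Q N 1 (0 : GG r Q)) : m ≡ 1 [MOD Q] := by
  rw [mem_lab] at hm
  have h1 := res_eq c Q hm.1.1
  have h2 : un c Q m = 1 := congrArg Prod.fst hm.2.2
  rw [hm.2.1, h2] at h1
  refine (ZMod.natCast_eq_natCast_iff _ _ _).1 ?_
  rw [h1]
  simp

end

end Pool.Agent.H239.MA
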