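import Pool.Agent.H239.MA.Cub
import Pool.Agent.H239.MA.Summ

/-! The averages of the correlations over the multiples of `Q`. -/

set_option autoImplicit false
set_option linter.unusedSectionVars false

namespace Pool.Agent.H239.MA

open Finset Filter Topology MeasureTheory
open scoped InnerProductSpace ENNReal
open Pool.Agent.K7.H83.MA

theorem div_lim {Q : ℕ} (hQ : 0 < Q) :
    Tendsto (fun N : ℕ => ((N / Q : ℕ) : ℝ) / N) atTop (𝓝 ((Q : ℝ)⁻¹)) := by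
  have hQr : (0 : ℝ) < Q := by exact_mod_cast hQ
  have h1 : Tendsto (fun N : ℕ => (Q : ℝ)⁻¹ - (N : ℝ)⁻¹) atTop (𝓝 ((Q : ℝ)⁻¹ - 0)) :=
    tendsto_const_nhds.sub tendsto_inv_atTop_nhds_zero_nat
  rw [sub_zero] at h1
  refine tendsto_of_tendsto_of_tendsto_of_le_of_le' h1 tendsto_const_nhds ?_ ?_
  · filter_upwards [eventually_gt_atTop 0] with N hN
    have hNr : (0 : ℝ) < N := by exact_mod_cast hN
    rw [le_div_iff₀ hNr, sub_mul, inv_mul_cancel₀ hNr.ne']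
    have h2 : (N : ℝ) < ((N / Q : ℕ) + 1 : ℝ) * Q := by
      rw [mul_comm]
      exact_mod_cast Nat.lt_mul_div_succ N hQ
    have h3 : (Q : ℝ)⁻¹ * N < (N / Q : ℕ) + 1 := by
      rw [inv_mul_lt_iff₀ hQr, mul_comm]; exact h2
    linarith
  · filter_upwards [eventually_gt_atTop 0] with N hN
    have hNr : (0 : ℝ) < N := by exact_mod_cast hN
    rw [div_le_iff₀ hNr, inv_mul_eq_div]
    exact Nat.cast_div_le

variable {X : Type*} [MeasurableSpace X] [StandardBorelSpace X] {μ : Measure X}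
  [IsProbabilityMeasure μ]
variable {r : ℕ} {c : ℕ → Fin r} {T : ℕ → X → X} {q : Fin r → ℕ}

/-- the correlations -/
noncomputable def bt (μ : Measure X) (T : ℕ → X → X) (φ a : X → ℝ) (n : ℕ) : ℝ :=
  ∫ x, φ x * Gn T a n x ∂μ

theorem bt_eq (h : Sys c μ T) {φ a : X → ℝ} (hφ : UM φ) (ha : UM a) {n : ℕ} (hn : 0 < n) :
    bt μ T φ a n = (⟪bl μ (cx fun x => φ x * a x), koop μ T n (bl μ (cx a))⟫_ℂ).re := by
  rw [koop_cx h hn ha, inner_cx (hφ.mul ha) (ha.comp (h.mp n hn).measurable), Complex.ofReal_re]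
  unfold bt Gn
  refine integral_congr_ae (Eventually.of_forall fun x => ?_)
  beta_reduce
  ring

theorem bt_nonneg (h : Sys c μ T) {φ a : X → ℝ} (hφ : UM φ) (ha : UM a) {n : ℕ} (hn : 0 < n) :
    0 ≤ bt μ T φ a n :=
  integral_nonneg fun x => mul_nonneg (hφ.2.1 x) ((Gn_UM h ha hn).2.1 x)

theorem bt_le (h : Sys c μ T) {φ a : X → ℝ} (hφ : UM φ) (ha : UM a) {n : ℕ} (hn : 0 < n) :
    bt μ T φ a n ≤ 1 := by
  rw [bt_eq h hφ ha hn]
  refine (le_abs_self _).trans (re_inner_le (hφ.mul ha).norm ?_)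
  rw [koop_norm (h.mp n hn)]
  exact ha.norm

theorem Dt_low (h : Sys c μ T) {Q : ℕ} (hQ : 0 < Q) {π : Fin r → ℕ} (hπ : Rep c π)
    {φ a : X → ℝ} (hφ : UM φ) (ha : UM a) (τ : ℝ) {n : ℕ} (hn : 0 < n) :
    2 * τ * bt μ T φ a n - τ ^ 2 ≤ Dt μ T (qq c Q π) φ a n := by
  have h1 := PI_low h hQ hπ hφ (Gn_UM h ha hn) (μ := μ)
  have h2 : (bt μ T φ a n) ^ 2 ≤ Dt μ T (qq c Q π) φ a n := h1
  nlinarith [sq_nonneg (bt μ T φ a n - τ)]

theorem chi_lim (h : Sys c μ T) {Q : ℕ} (hQ : 0 < Q) {π : Fin r → ℕ} (hπ : Rep c π)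
    {φ a : X → ℝ} (hφ : UM φ) (ha : UM a) (τ : ℝ) {d₀ : ℝ}
    (hd₀ : Tendsto (fun N : ℕ => ((lab c 1 N 1 (0 : GG r 1)).card : ℝ) / N) atTop (𝓝 d₀)) :
    Tendsto (fun N : ℕ => (N : ℝ)⁻¹ * ∑ n ∈ lab c 1 (N / Q) 1 (0 : GG r 1),
      (2 * τ * bt μ T φ a (Q * n) - τ ^ 2)) atTop
      (𝓝 ((Q : ℝ)⁻¹ * (2 * τ * (d₀ * (⟪bl μ (cx fun x => φ x * a x),
        koop μ T Q (PI (koop μ T) (qq c 1 π) (bl μ (cx a)))⟫_ℂ).re) - τ ^ 2 * d₀))) := by
  obtain ⟨d, hseq⟩ := seq_lab c 1 hπ 1 0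
  have hdd : d = d₀ := tendsto_nhds_unique hseq.dens hd₀
  subst hdd
  have h1 := mean_erg h.FG hseq (inv_lab c 1 one_pos hπ 1 0 h.FG) (bl μ (cx a))
  have h2 : Tendsto (fun K => (⟪bl μ (cx fun x => φ x * a x), koop μ T Q (avg (koop μ T)
      (fun N => lab c 1 N 1 0) (rr c 1 π) K (bl μ (cx a)))⟫_ℂ).re) atTop
      (𝓝 (d * (⟪bl μ (cx fun x => φ x * a x),
        koop μ T Q (PI (koop μ T) (qq c 1 π) (bl μ (cx a)))⟫_ℂ).re)) := by
    have h3 := (Complex.continuous_re.tendsto _).comp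
      ((tendsto_const_nhds (x := bl μ (cx fun x => φ x * a x))).inner
        (((koop μ T Q).continuous.tendsto _).comp h1))
    rw [map_smul, inner_smul_right, Complex.re_ofReal_mul] at h3
    exact h3
  have h3 : Tendsto (fun K : ℕ => (K : ℝ)⁻¹ * ∑ n ∈ lab c 1 K 1 (0 : GG r 1),
      (2 * τ * bt μ T φ a (Q * n) - τ ^ 2)) atTop
      (𝓝 (2 * τ * (d * (⟪bl μ (cx fun x => φ x * a x),
        koop μ T Q (PI (koop μ T) (qq c 1 π) (bl μ (cx a)))⟫_ℂ).re) - τ ^ 2 * d)) := by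
    refine ((h2.const_mul (2 * τ)).sub (hseq.dens.const_mul (τ ^ 2))).congr fun K => ?_
    rw [Finset.sum_sub_distrib, Finset.sum_const, nsmul_eq_mul, ← Finset.mul_sum]
    have h4 : (⟪bl μ (cx fun x => φ x * a x), koop μ T Q (avg (koop μ T)
      (fun N => lab c 1 N 1 0) (rr c 1 π) K (bl μ (cx a)))⟫_ℂ).re =
        (K : ℝ)⁻¹ * ∑ n ∈ lab c 1 K 1 (0 : GG r 1), bt μ T φ a (Q * n) := by
      have hKc : ((K : ℂ)⁻¹) = (((K : ℝ)⁻¹ : ℝ) : ℂ) := by push_cast; rfl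
      unfold avg
      rw [_root_.smul_apply, _root_.sum_apply, map_smul, inner_smul_right, map_sum, inner_sum, hKc,
        Complex.re_ofReal_mul, Complex.re_sum]
      congr 1
      refine Finset.sum_congr rfl fun n hn => ?_
      have hn0 := ((mem_lab c 1).1 hn).1.1
      rw [koop_lab h one_pos hπ hn, bt_eq h hφ ha (Nat.mul_pos hQ hn0), h.FG.mul Q n hQ hn0]
      rfl
    rw [h4]
    ring
  have h4 := (div_lim hQ).mul (h3.comp (Nat.tendsto_div_const_atTop hQ.ne'))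
  refine h4.congr fun N => ?_
  simp only [Function.comp_apply]
  rcases Nat.eq_zero_or_pos (N / Q) with h0 | h0
  · rw [h0]
    have : lab c 1 0 1 (0 : GG r 1) = ∅ := by
      rw [Finset.eq_empty_iff_forall_notMem]
      intro n hn
      rw [mem_lab] at hn
      omega
    rw [this]; simp
  · have h5 : (((N / Q : ℕ) : ℝ)) ≠ 0 := by exact_mod_cast h0.ne'
    field_simp

/-- the lower bound of the averages over the set `SS` -/
theorem SS_low (h : Sys c μ T) {Q : ℕ} (hQ : 0 < Q) {φ a : X → ℝ} (hφ : UM φ) (ha : UM a)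
    {τ : ℝ} (hτ : 0 ≤ τ) {M : ℕ} (hM : 0 < M) {ε : ℝ}
    (hMc : ∀ N : ℕ, (((Ioc 0 N).filter fun n => ¬ sp c Q n ∣ M).card : ℝ) ≤ ε * N) (hε : 0 ≤ ε)
    {N : ℕ} (hN : 0 < N) :
    (N : ℝ)⁻¹ * ∑ n ∈ lab c 1 (N / Q) 1 (0 : GG r 1), (2 * τ * bt μ T φ a (Q * n) - τ ^ 2) -
      2 * τ * ε * (Q : ℝ)⁻¹ ≤
    (N : ℝ)⁻¹ * ∑ n ∈ SS c Q M N, (2 * τ * bt μ T φ a n - τ ^ 2) := by
  classical
  have hNr : (0 : ℝ) < N := by exact_mod_cast hN
  have hQr : (0 : ℝ) < Q := by exact_mod_cast hQ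
  rw [SS_one c Q hQ hM, ← Finset.sum_filter_add_sum_filter_not (lab c 1 (N / Q) 1 (0 : GG r 1))
    (fun n => sp c Q n ∣ M) (fun n => 2 * τ * bt μ T φ a (Q * n) - τ ^ 2), mul_add]
  have h1 : ∑ n ∈ (lab c 1 (N / Q) 1 (0 : GG r 1)).filter (fun n => ¬ sp c Q n ∣ M),
      (2 * τ * bt μ T φ a (Q * n) - τ ^ 2) ≤ 2 * τ * (ε * (N / Q)) := by
    have h2 : ∀ n ∈ (lab c 1 (N / Q) 1 (0 : GG r 1)).filter (fun n => ¬ sp c Q n ∣ M),
        (2 * τ * bt μ T φ a (Q * n) - τ ^ 2) ≤ 2 * τ := by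
      intro n hn
      rw [mem_filter, mem_lab] at hn
      have h3 := bt_le h hφ ha (Nat.mul_pos hQ hn.1.1.1) (μ := μ)
      nlinarith [sq_nonneg τ]
    refine (Finset.sum_le_sum h2).trans ?_
    rw [Finset.sum_const, nsmul_eq_mul, mul_comm]
    refine mul_le_mul_of_nonneg_left ?_ (by positivity)
    have h3 : ((lab c 1 (N / Q) 1 (0 : GG r 1)).filter (fun n => ¬ sp c Q n ∣ M)) ⊆
        (Ioc 0 (N / Q)).filter fun n => ¬ sp c Q n ∣ M := by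
      intro n hn
      rw [mem_filter, mem_lab] at hn
      rw [mem_filter, mem_Ioc]
      exact ⟨hn.1.1, hn.2⟩
    refine ((Nat.cast_le.2 (Finset.card_le_card h3)).trans (hMc (N / Q))).trans ?_
    exact mul_le_mul_of_nonneg_left Nat.cast_div_le hε
  have h2 : (N : ℝ)⁻¹ * ∑ n ∈ (lab c 1 (N / Q) 1 (0 : GG r 1)).filter (fun n => ¬ sp c Q n ∣ M),
      (2 * τ * bt μ T φ a (Q * n) - τ ^ 2) ≤ 2 * τ * ε * (Q : ℝ)⁻¹ := by
    calc _ ≤ (N : ℝ)⁻¹ * (2 * τ * (ε * (N / Q))) := mul_le_mul_of_nonneg_left h1 (by positivity)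
      _ = _ := by field_simp
  linarith

end Pool.Agent.H239.MA
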