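import Pool.Agent.H239.MA.Fina

/-! The averages are bounded from below. -/

set_option autoImplicit false
set_option linter.unusedSectionVars false

namespace Pool.Agent.H239.MA

open Finset Filter Topology MeasureTheory
open scoped InnerProductSpace ENNReal
open Pool.Agent.K7.H83.MA

variable {X : Type*} [MeasurableSpace X] [StandardBorelSpace X] {μ : Measure X}
  [IsProbabilityMeasure μ]
variable {r : ℕ} {c : ℕ → Fin r} {T : ℕ → X → X} {q : Fin r → ℕ}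

theorem pos_lim (h : Sys c μ T) {a : X → ℝ} (ha : UM a) (ha0 : 0 < ∫ x, a x ∂μ) :
    ∃ κ : ℝ, 0 < κ ∧ ∀ᶠ N : ℕ in atTop,
      κ ≤ ((N : ℝ)⁻¹ * (N : ℝ)⁻¹) * ∑ m ∈ Ioc 0 N, ∑ n ∈ Ioc 0 N, It μ T a m n := by
  classical
  obtain ⟨φ, hφ, hφ1, hφ2⟩ := exists_proj h ha
  set δ : ℝ := ∫ x, φ x * a x ∂μ with hδd
  have hδ : 0 < δ := lt_of_lt_of_le (by positivity) (proj_corr h ha hφ hφ1 hφ2)
  have hδ1 : δ ≤ 1 := by
    have h1 := re_inner_le (μ := μ) UM.one.norm (hφ.mul ha).norm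
    rw [inner_one (hφ.mul ha), Complex.ofReal_re] at h1
    exact (le_abs_self _).trans h1
  obtain ⟨π, hπ⟩ := exists_rep c
  obtain ⟨d₀, hseq₀⟩ := seq_lab c 1 hπ 1 0
  have hd₀ : 0 < d₀ := dens_pos c 1 one_pos hseq₀.dens
  set τ : ℝ := δ ^ 2 / 2 with hτd
  have hτ : 0 < τ := by positivity
  have hτ1 : 2 * τ ≤ 1 := by
    have : δ ^ 2 ≤ 1 := pow_le_one₀ hδ.le hδ1
    rw [hτd]; linarith
  set ε : ℝ := d₀ * τ ^ 2 / 14 with hεd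
  have hε : 0 < ε := by positivity
  obtain ⟨y, hyNS, hyd⟩ := hφ1 ε hε
  obtain ⟨Q₀, hQ₀, hNS⟩ := hyNS ε hε
  obtain ⟨l, hl, hκ⟩ := exists_pow h hπ hφ ha hδ hQ₀
  set Q : ℕ := Q₀ ^ l with hQd
  have hQ : 0 < Q := pow_pos hQ₀ l
  have hQr : (0 : ℝ) < Q := by exact_mod_cast hQ
  have : NeZero Q := ⟨hQ.ne'⟩
  have : NeZero (Nat.totient Q) := ⟨(Nat.totient_pos.2 hQ).ne'⟩
  obtain ⟨N₁, hN₁⟩ := hNS Q hQ (dvd_pow_self Q₀ hl.ne')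
  obtain ⟨M, hM0, _, hMc0⟩ := good (spa_Sp c Q hQ) ε hε
  have hMc : ∀ N : ℕ, (((Ioc 0 N).filter fun n => ¬ sp c Q n ∣ M).card : ℝ) ≤ ε * N := by
    intro N
    refine le_trans (le_of_eq ?_) (hMc0 N)
    congr 2
  obtain ⟨d, hseq⟩ := seq_lab c Q hπ 1 0
  have hd : 0 < d := dens_pos c Q hQ hseq.dens
  -- the three limits
  have l1 : Tendsto (fun N : ℕ => (⟪bl μ (cx a), ((N : ℂ)⁻¹ * (N : ℂ)⁻¹) •
      ∑ m ∈ lab c Q N 1 0, ∑ n ∈ SS c Q M N, mulB μ (ww T (cx a) (cx a) (cx a) m n)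
          (koop μ T (m + n) (bl μ (cx a) - bl μ (cx φ)))⟫_ℂ).re) atTop (𝓝 0) := by
    have h1 := orth_part h hQ ha.bm ha.bm ha.bm hφ2 (Js c Q M)
    have h2 := (Complex.continuous_re.tendsto _).comp
      ((tendsto_const_nhds (x := bl μ (cx a))).inner h1)
    rw [inner_zero_right, Complex.zero_re] at h2
    exact h2
  have l2 : Tendsto (fun N : ℕ => ∑ x ∈ Js c Q M ×ˢ (Finset.univ : Finset (GG r Q)),
      (N : ℝ)⁻¹ * ∑ n ∈ lab c Q N x.1 x.2, ((N : ℝ)⁻¹ * ∑ m ∈ lab c Q N 1 0, Jt μ T φ a m n -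
        ((lab c Q N 1 (0 : GG r Q)).card / N : ℝ) * Dt μ T (qq c Q π) φ a n)) atTop (𝓝 0) := by
    have h1 : Tendsto (fun N : ℕ => ∑ x ∈ Js c Q M ×ˢ (Finset.univ : Finset (GG r Q)),
      (N : ℝ)⁻¹ * ∑ n ∈ lab c Q N x.1 x.2, ((N : ℝ)⁻¹ * ∑ m ∈ lab c Q N 1 0, Jt μ T φ a m n -
        ((lab c Q N 1 (0 : GG r Q)).card / N : ℝ) * Dt μ T (qq c Q π) φ a n)) atTop
        (𝓝 (∑ _x ∈ Js c Q M ×ˢ (Finset.univ : Finset (GG r Q)), (0 : ℝ))) :=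
      tendsto_finsetSum _ fun x _ => cube_lab h hQ hπ hφ ha x.1 x.2
    rwa [Finset.sum_const_zero] at h1
  have l3 := hseq.dens.mul (((chi_lim h hQ hπ hφ ha τ hseq₀.dens).sub_const
    (2 * τ * ε * (Q : ℝ)⁻¹)).sub_const (6 * ε * (Q : ℝ)⁻¹))
  set K : ℝ := (⟪bl μ (cx fun x => φ x * a x),
        koop μ T Q (PI (koop μ T) (qq c 1 π) (bl μ (cx a)))⟫_ℂ).re with hK
  have l4 := (l1.add l2).add l3
  rw [zero_add, zero_add] at l4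
  have hlow : d * (Q : ℝ)⁻¹ * (d₀ * τ ^ 2 / 2) ≤
      d * ((Q : ℝ)⁻¹ * (2 * τ * (d₀ * K) - τ ^ 2 * d₀) -
        2 * τ * ε * (Q : ℝ)⁻¹ - 6 * ε * (Q : ℝ)⁻¹) := by
    have h1 : d * ((Q : ℝ)⁻¹ * (2 * τ * (d₀ * K) - τ ^ 2 * d₀) -
        2 * τ * ε * (Q : ℝ)⁻¹ - 6 * ε * (Q : ℝ)⁻¹) = d * (Q : ℝ)⁻¹ *
        (2 * τ * (d₀ * K) - τ ^ 2 * d₀ - 2 * τ * ε - 6 * ε) := by ring
    rw [h1]
    refine mul_le_mul_of_nonneg_left ?_ (by positivity)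
    have h2 : τ ≤ K := hκ
    have h3 : τ * (d₀ * τ) ≤ τ * (d₀ * K) :=
      mul_le_mul_of_nonneg_left (mul_le_mul_of_nonneg_left h2 hd₀.le) hτ.le
    have h4 : 2 * τ * ε ≤ 1 * ε := mul_le_mul_of_nonneg_right hτ1 hε.le
    have h5 : 7 * ε = d₀ * τ ^ 2 / 2 := by rw [hεd]; ring
    nlinarith
  have hpos : 0 < d * (Q : ℝ)⁻¹ * (d₀ * τ ^ 2 / 2) := by positivity
  refine ⟨d * (Q : ℝ)⁻¹ * (d₀ * τ ^ 2 / 2) / 2, by positivity, ?_⟩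
  have h6 := l4.eventually (lt_mem_nhds (show d * (Q : ℝ)⁻¹ * (d₀ * τ ^ 2 / 2) / 2 <
    d * ((Q : ℝ)⁻¹ * (2 * τ * (d₀ * K) - τ ^ 2 * d₀) -
        2 * τ * ε * (Q : ℝ)⁻¹ - 6 * ε * (Q : ℝ)⁻¹) by linarith))
  filter_upwards [h6, eventually_gt_atTop 0, eventually_ge_atTop N₁] with N h7 hN hNN₁
  refine h7.le.trans ?_
  refine main_low h hQ hπ hφ ha hyd hM0 hMc hN (fun E hE => ?_) hτ.le
  have h8 := hN₁ (2 * N) (by omega)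
  push_cast at h8
  refine le_trans (Nat.cast_le.2 (Finset.card_le_card fun k hk => ?_)) h8
  simp only [mem_filter, mem_Ioc]
  exact hE k hk

end Pool.Agent.H239.MA
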