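import Pool.Agent.H239.MA.Posi

/-! The cube averages over two labels, in terms of correlations. -/

set_option autoImplicit false
set_option linter.unusedSectionVars false

namespace Pool.Agent.H239.MA

open Finset Filter Topology MeasureTheory
open scoped InnerProductSpace ENNReal
open Pool.Agent.K7.H83.MA

variable {X : Type*} [MeasurableSpace X] [StandardBorelSpace X] {μ : Measure X}
  [IsProbabilityMeasure μ]
variable {r : ℕ} {c : ℕ → Fin r} {T : ℕ → X → X} {q : Fin r → ℕ}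

/-- the products -/
def Gn (T : ℕ → X → X) (a : X → ℝ) (n : ℕ) : X → ℝ := fun x => a x * a (T n x)

theorem Gn_UM (h : Sys c μ T) {a : X → ℝ} (ha : UM a) {n : ℕ} (hn : 0 < n) : UM (Gn T a n) :=
  ha.mul (ha.comp (h.mp n hn).measurable)

theorem mulB_self {F : X → ℝ} (hF : UM F) (x y : Lp ℂ 2 μ) :
    ⟪mulB μ (cx F) x, y⟫_ℂ = ⟪x, mulB μ (cx F) y⟫_ℂ := by
  rw [L2.inner_def, L2.inner_def]
  refine integral_congr_ae ?_
  filter_upwards [mulB_coe hF.bm x, mulB_coe hF.bm y] with z h1 h2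
  rw [h1, h2, RCLike.inner_apply, RCLike.inner_apply]
  unfold cx
  rw [map_mul, Complex.conj_ofReal]
  ring

/-- the correlations -/
noncomputable def Jt (μ : Measure X) [IsProbabilityMeasure μ] (T : ℕ → X → X) (φ a : X → ℝ)
    (m n : ℕ) : ℝ :=
  (⟪bl μ (cx fun x => φ x * Gn T a n x), koop μ T m (bl μ (cx (Gn T a n)))⟫_ℂ).re

/-- the limiting correlations -/
noncomputable def Dt (μ : Measure X) [IsProbabilityMeasure μ] (T : ℕ → X → X) (q : Fin r → ℕ)
    (φ a : X → ℝ) (n : ℕ) : ℝ :=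
  (⟪bl μ (cx fun x => φ x * Gn T a n x), PI (koop μ T) q (bl μ (cx (Gn T a n)))⟫_ℂ).re

theorem re_inner_le {f : Lp ℂ 2 μ} {g : Lp ℂ 2 μ} (hf : ‖f‖ ≤ 1) (hg : ‖g‖ ≤ 1) :
    |(⟪f, g⟫_ℂ).re| ≤ 1 := by
  refine (Complex.abs_re_le_norm _).trans ((norm_inner_le_norm _ _).trans ?_)
  exact mul_le_one₀ hf (norm_nonneg _) hg

theorem Jt_le (h : Sys c μ T) {φ a : X → ℝ} (hφ : UM φ) (ha : UM a) {m n : ℕ} (hm : 0 < m)
    (hn : 0 < n) : |Jt μ T φ a m n| ≤ 1 := by
  refine re_inner_le (hφ.mul (Gn_UM h ha hn)).norm ?_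
  rw [koop_norm (h.mp m hm)]
  exact (Gn_UM h ha hn).norm

theorem Dt_le (h : Sys c μ T) {φ a : X → ℝ} (hφ : UM φ) (ha : UM a) {n : ℕ}
    (hn : 0 < n) : |Dt μ T q φ a n| ≤ 1 :=
  re_inner_le (hφ.mul (Gn_UM h ha hn)).norm ((PI_norm _ _).trans (Gn_UM h ha hn).norm)

theorem mul_Gn (h : Sys c μ T) {φ a : X → ℝ} (hφ : UM φ) (ha : UM a) {n : ℕ} (hn : 0 < n) :
    bl μ (cx fun x => φ x * Gn T a n x) =
      mulB μ (cx fun x => a (T n x)) (bl μ (cx fun x => φ x * a x)) := by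
  rw [mulB_bl (ha.comp (h.mp n hn).measurable).bm (hφ.mul ha).bm]
  congr 1
  funext x
  unfold cx Gn
  push_cast
  ring

theorem Jt_eq (h : Sys c μ T) {φ a : X → ℝ} (hφ : UM φ) (ha : UM a) {m n : ℕ} (hn : 0 < n) :
    Jt μ T φ a m n = (⟪bl μ (cx fun x => φ x * a x), mulB μ (cx fun x => a (T n x))
      (koop μ T m (bl μ (cx (Gn T a n))))⟫_ℂ).re := by
  unfold Jt
  rw [mul_Gn h hφ ha hn, mulB_self (ha.comp (h.mp n hn).measurable)]

theorem Dt_eq (h : Sys c μ T) {φ a : X → ℝ} (hφ : UM φ) (ha : UM a) {n : ℕ} (hn : 0 < n) :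
    Dt μ T q φ a n = (⟪bl μ (cx fun x => φ x * a x), mulB μ (cx fun x => a (T n x))
      (PI (koop μ T) q (bl μ (cx (Gn T a n))))⟫_ℂ).re := by
  unfold Dt
  rw [mul_Gn h hφ ha hn, mulB_self (ha.comp (h.mp n hn).measurable)]

/-- the terms of a label -/
theorem lab_ident (h : Sys c μ T) {Q : ℕ} (hQ : 0 < Q) {π : Fin r → ℕ} (hπ : Rep c π)
    {a : X → ℝ} (ha : UM a) {s : ℕ} {g : GG r Q} {N n : ℕ} (hn : n ∈ lab c Q N s g) :
    mulB μ (fun x => cx (fun y => a (T (s * tt Q π g) y)) (T (rr c Q π n) x)) =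
      mulB μ (cx fun x => a (T n x)) ∧
    gv μ T (rr c Q π n) (cx a) (cx (fun y => a (T (s * tt Q π g) y))) = bl μ (cx (Gn T a n)) := by
  rw [mem_lab] at hn
  have hs0 : 0 < s := by rw [← hn.2.1]; exact sp_pos c Q hn.1.1
  have ht : 0 < s * tt Q π g := Nat.mul_pos hs0 (tt_pos Q hπ.pos g)
  have hr : 0 < rr c Q π n := rr_pos c Q hπ.pos n
  have hu := u_lab c Q h.FG hπ hQ hn.1.1
  rw [hn.2.1, hn.2.2] at hu
  have hU : UM (fun y => a (T (s * tt Q π g) y)) := ha.comp (h.mp _ ht).measurable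
  have e1 := ae_of_u h hn.1.1 ht hr (by rw [hu, h.FG.comm ht hr]) ha.bm
  have e2 : ∀ᵐ x ∂μ, a (T n x) = a (T (s * tt Q π g) (T (rr c Q π n) x)) := by
    filter_upwards [e1] with x hx
    unfold cx at hx
    exact_mod_cast hx
  constructor
  · refine mulB_congr (hU.bm.comp (h.mp _ hr).measurable)
      (ha.comp (h.mp _ hn.1.1).measurable).bm ?_
    filter_upwards [e2] with x hx
    unfold cx
    beta_reduce
    rw [hx]
  · unfold gv
    refine bl_congr (ha.bm.mul (hU.bm.comp (h.mp _ hr).measurable)) (Gn_UM h ha hn.1.1).bm ?_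
    filter_upwards [e2] with x hx
    unfold cx Gn
    beta_reduce
    rw [hx]
    push_cast
    rfl

theorem koop_lab (h : Sys c μ T) {Q : ℕ} (hQ : 0 < Q) {π : Fin r → ℕ} (hπ : Rep c π)
    {N m : ℕ} (hm : m ∈ lab c Q N 1 (0 : GG r Q)) : koop μ T (rr c Q π m) = koop μ T m := by
  rw [mem_lab] at hm
  have hu := u_lab c Q h.FG hπ hQ hm.1.1
  rw [hm.2.1, hm.2.2] at hu
  have ht : tt Q π (0 : GG r Q) = 1 := by
    have : NeZero (Nat.totient Q) := ⟨(Nat.totient_pos.2 hQ).ne'⟩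
    unfold tt
    refine Finset.prod_eq_one fun i _ => ?_
    have : ((0 : GG r Q).2 i).val = 0 := by
      change (0 : ZMod (Nat.totient Q)).val = 0
      exact ZMod.val_zero
    rw [this, pow_zero]
  rw [ht, one_mul, h.FG.one, one_mul] at hu
  exact hu.symm

theorem cube_lab (h : Sys c μ T) {Q : ℕ} (hQ : 0 < Q) {π : Fin r → ℕ} (hπ : Rep c π)
    {φ a : X → ℝ} (hφ : UM φ) (ha : UM a) (s : ℕ) (g : GG r Q) :
    Tendsto (fun N : ℕ => (N : ℝ)⁻¹ * ∑ n ∈ lab c Q N s g, ((N : ℝ)⁻¹ *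
      ∑ m ∈ lab c Q N 1 0, Jt μ T φ a m n -
        ((lab c Q N 1 (0 : GG r Q)).card / N : ℝ) * Dt μ T (qq c Q π) φ a n)) atTop (𝓝 0) := by
  classical
  obtain ⟨d, hseq⟩ := seq_lab c Q hπ s g
  obtain ⟨d', hseq'⟩ := seq_lab c Q hπ 1 0
  have hd' : 0 < d' := dens_pos c Q hQ hseq'.dens
  have hq := hseq.qpos
  have hd0 : 0 ≤ d := ge_of_tendsto' hseq.dens fun N => by positivity
  rcases hd0.eq_or_lt with hd | hd
  · -- empty density
    have h1 : Tendsto (fun N : ℕ => ((lab c Q N s g).card : ℝ) / N * 2) atTop (𝓝 (d * 2)) :=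
      hseq.dens.mul_const 2
    rw [← hd, zero_mul] at h1
    refine squeeze_zero_norm (fun N => ?_) h1
    rcases Nat.eq_zero_or_pos N with h0 | h0
    · subst h0; simp
    have hN : (0 : ℝ) < N := by exact_mod_cast h0
    have hcd : ((lab c Q N 1 (0 : GG r Q)).card : ℝ) ≤ N := card_le_of_sub hseq'.sub N
    rw [norm_mul, norm_inv, Real.norm_of_nonneg hN.le]
    have h2 : ‖∑ n ∈ lab c Q N s g, ((N : ℝ)⁻¹ * ∑ m ∈ lab c Q N 1 0, Jt μ T φ a m n -
        ((lab c Q N 1 (0 : GG r Q)).card / N : ℝ) * Dt μ T (qq c Q π) φ a n)‖ ≤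
        (lab c Q N s g).card * 2 := by
      have h3 : ∀ n ∈ lab c Q N s g, ‖(N : ℝ)⁻¹ * ∑ m ∈ lab c Q N 1 0, Jt μ T φ a m n -
        ((lab c Q N 1 (0 : GG r Q)).card / N : ℝ) * Dt μ T (qq c Q π) φ a n‖ ≤ 2 := by
        intro n hn
        have hn0 := ((mem_lab c Q).1 hn).1.1
        refine (norm_sub_le _ _).trans ?_
        have h4 : ‖∑ m ∈ lab c Q N 1 (0 : GG r Q), Jt μ T φ a m n‖ ≤ N := by
          have h5 : ∀ m ∈ lab c Q N 1 (0 : GG r Q), ‖Jt μ T φ a m n‖ ≤ 1 := fun m hm =>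
            Jt_le h hφ ha ((mem_lab c Q).1 hm).1.1 hn0
          refine (norm_sum_le _ _).trans ((Finset.sum_le_sum h5).trans ?_)
          rw [Finset.sum_const, nsmul_eq_mul, mul_one]
          exact hcd
        have h6 : ‖(N : ℝ)⁻¹ * ∑ m ∈ lab c Q N 1 (0 : GG r Q), Jt μ T φ a m n‖ ≤ 1 := by
          rw [norm_mul, norm_inv, Real.norm_of_nonneg hN.le, inv_mul_le_iff₀ hN, mul_one]
          exact h4
        have h7 : ‖((lab c Q N 1 (0 : GG r Q)).card / N : ℝ) * Dt μ T (qq c Q π) φ a n‖ ≤ 1 := by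
          rw [norm_mul]
          refine mul_le_one₀ ?_ (norm_nonneg _) (Dt_le h hφ ha hn0)
          rw [Real.norm_of_nonneg (by positivity), div_le_one hN]
          exact hcd
        linarith
      refine (norm_sum_le _ _).trans ((Finset.sum_le_sum h3).trans ?_)
      rw [Finset.sum_const, nsmul_eq_mul]
    calc (N : ℝ)⁻¹ * _ ≤ (N : ℝ)⁻¹ * ((lab c Q N s g).card * 2) :=
          mul_le_mul_of_nonneg_left h2 (by positivity)
      _ = _ := by ring
  · -- the main case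
    have hs0 : 0 < s := by
      by_contra hs
      have hs' : s = 0 := by omega
      have hempty : ∀ N, lab c Q N s g = ∅ := by
        intro N
        rw [Finset.eq_empty_iff_forall_notMem]
        intro n hn
        rw [mem_lab] at hn
        have := sp_pos c Q hn.1.1
        omega
      have h1 := hseq.dens
      simp only [hempty, Finset.card_empty, Nat.cast_zero, zero_div] at h1
      exact hd.ne' (tendsto_nhds_unique tendsto_const_nhds h1).symm
    have ht : 0 < s * tt Q π g := Nat.mul_pos hs0 (tt_pos Q hπ.pos g)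
    have hU : UM (fun y => a (T (s * tt Q π g) y)) := ha.comp (h.mp _ ht).measurable
    have h1 := CN_VN h hseq (inv_lab c Q hQ hπ s g h.FG) (inv_lab c Q hQ hπ s g (h.prod hq).FG) hd
      hseq' (inv_lab c Q hQ hπ 1 0 h.FG) (inv_lab c Q hQ hπ 1 0 (h.prod hq).FG) hd'
      hU.bm ha.bm hU.bm
    have h2 := (Complex.continuous_re.tendsto _).comp
      ((tendsto_const_nhds (x := bl μ (cx fun x => φ x * a x))).inner h1)
    rw [inner_zero_right, Complex.zero_re] at h2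
    refine h2.congr fun N => ?_
    simp only [Function.comp_apply]
    have hNc : ((N : ℂ)⁻¹) = (((N : ℝ)⁻¹ : ℝ) : ℂ) := by push_cast; rfl
    rw [inner_sub_right, Complex.sub_re, inner_smul_right, Complex.re_ofReal_mul]
    unfold CN VN
    rw [inner_smul_right, inner_smul_right, inner_sum, inner_sum, hNc, Complex.re_ofReal_mul,
      Complex.re_ofReal_mul, Complex.re_sum, Complex.re_sum]
    have hA : ∀ n ∈ lab c Q N s g, (⟪bl μ (cx fun x => φ x * a x),
        mulB μ (fun x => cx (fun y => a (T (s * tt Q π g) y)) (T (rr c Q π n) x))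
          (avg (koop μ T) (fun N => lab c Q N 1 0) (rr c Q π) N
            (gv μ T (rr c Q π n) (cx a) (cx fun y => a (T (s * tt Q π g) y))))⟫_ℂ).re =
        (N : ℝ)⁻¹ * ∑ m ∈ lab c Q N 1 0, Jt μ T φ a m n := by
      intro n hn
      have hn0 := ((mem_lab c Q).1 hn).1.1
      obtain ⟨e1, e2⟩ := lab_ident h hQ hπ ha hn
      rw [e1, e2]
      unfold avg
      rw [_root_.smul_apply, _root_.sum_apply, map_smul, inner_smul_right, map_sum, inner_sum, hNc,
        Complex.re_ofReal_mul, Complex.re_sum]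
      congr 1
      refine Finset.sum_congr rfl fun m hm => ?_
      rw [koop_lab h hQ hπ hm, Jt_eq h hφ ha hn0]
    have hB : ∀ n ∈ lab c Q N s g, (⟪bl μ (cx fun x => φ x * a x),
        mulB μ (fun x => cx (fun y => a (T (s * tt Q π g) y)) (T (rr c Q π n) x))
          (PI (koop μ T) (qq c Q π)
            (gv μ T (rr c Q π n) (cx a) (cx fun y => a (T (s * tt Q π g) y))))⟫_ℂ).re =
        Dt μ T (qq c Q π) φ a n := by
      intro n hn
      have hn0 := ((mem_lab c Q).1 hn).1.1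
      obtain ⟨e1, e2⟩ := lab_ident h hQ hπ ha hn
      rw [e1, e2, Dt_eq h hφ ha hn0]
    rw [Finset.sum_congr rfl hA, Finset.sum_congr rfl hB, Finset.sum_sub_distrib,
      ← Finset.mul_sum _ _ ((((lab c Q N 1 (0 : GG r Q)).card : ℝ) / N))]
    ring

end Pool.Agent.H239.MA
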