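import Pool.Graph.R_pool_sql_team_seeded_35f281b4.K7.H83.MA.Main

/-! The trivial label has positive density. -/

set_option autoImplicit false
set_option linter.unusedSectionVars false

namespace Pool.Agent.H239.MA

open Finset Filter Topology
open Pool.Agent.K7.H83.MA

section

variable {r : ℕ} (c : ℕ → Fin r) (Q : ℕ)

theorem lab_mono {N N' : ℕ} (h : N ≤ N') (s : ℕ) (g : GG r Q) : lab c Q N s g ⊆ lab c Q N' s g := by
  intro n hn
  rw [mem_lab] at hn ⊢
  exact ⟨⟨hn.1.1, hn.1.2.trans h⟩, hn.2⟩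

theorem lab_card_le {s : ℕ} (hs : 0 < s) (hs1 : sp c Q s = s) (N : ℕ) (g : GG r Q) :
    (lab c Q N s g).card ≤ (lab c Q N 1 g).card := by
  have hs2 : gam c Q s = 0 := by
    rw [← hs1]; exact gam_sp c Q hs
  have h1 := lab_sum c Q (fun _ => (1 : ℕ)) hs hs1 hs2 N g
  rw [Finset.sum_const, Finset.sum_const, smul_eq_mul, smul_eq_mul, mul_one, mul_one] at h1
  rw [h1]
  exact Finset.card_le_card (lab_mono c Q (Nat.div_le_self N s) 1 g)

theorem gam_pow {n : ℕ} (hn : 0 < n) (k : ℕ) : gam c Q (n ^ k) = k • gam c Q n := by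
  induction k with
  | zero => rw [pow_zero, gam_one, zero_smul]
  | succ k ih => rw [pow_succ, gam_mul c Q (pow_pos hn k) hn, ih, succ_nsmul]

theorem sp_pow {n : ℕ} (hn : 0 < n) (h : sp c Q n = 1) (k : ℕ) : sp c Q (n ^ k) = 1 := by
  induction k with
  | zero => rw [pow_zero, sp_one]
  | succ k ih => rw [pow_succ, sp_mul c Q (pow_pos hn k) hn, ih, h, mul_one]

theorem lab_shift (hQ : 0 < Q) (g : GG r Q) : ∃ k : ℕ, 0 < k ∧ ∀ N : ℕ,
    (lab c Q N 1 g).card ≤ (lab c Q (k * N) 1 0).card := by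
  classical
  by_cases h : ∃ n, 0 < n ∧ sp c Q n = 1 ∧ gam c Q n = g
  · obtain ⟨n, hn, h1, h2⟩ := h
    have hk : 0 < n ^ (Nat.totient Q - 1) := pow_pos hn _
    refine ⟨n ^ (Nat.totient Q - 1), hk, fun N => ?_⟩
    refine Finset.card_le_card_of_injOn (fun m => n ^ (Nat.totient Q - 1) * m) (fun m hm => ?_)
      (fun a _ b _ hab => ?_)
    · rw [Finset.mem_coe, mem_lab] at hm
      beta_reduce
      rw [Finset.mem_coe, mem_lab]
      refine ⟨⟨Nat.mul_pos hk hm.1.1, Nat.mul_le_mul_left _ hm.1.2⟩, ?_, ?_⟩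
      · rw [sp_mul c Q hk hm.1.1, sp_pow c Q hn h1, hm.2.1, mul_one]
      · rw [gam_mul c Q hk hm.1.1, gam_pow c Q hn, h2, hm.2.2, ← succ_nsmul,
          Nat.sub_add_cancel (Nat.totient_pos.2 hQ), GG_kill Q hQ]
    · exact Nat.eq_of_mul_eq_mul_left hk hab
  · refine ⟨1, one_pos, fun N => ?_⟩
    have : lab c Q N 1 g = ∅ := by
      rw [Finset.eq_empty_iff_forall_notMem]
      intro n hn
      rw [mem_lab] at hn
      exact h ⟨n, hn.1.1, hn.2.1, hn.2.2⟩
    rw [this, Finset.card_empty]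
    exact Nat.zero_le _

theorem dens_pos (hQ : 0 < Q) {d : ℝ}
    (hd : Tendsto (fun N : ℕ => ((lab c Q N 1 (0 : GG r Q)).card : ℝ) / N) atTop (𝓝 d)) :
    0 < d := by
  classical
  have : NeZero Q := ⟨hQ.ne'⟩
  have : NeZero (Nat.totient Q) := ⟨(Nat.totient_pos.2 hQ).ne'⟩
  obtain ⟨M, hM0, hME, hMc⟩ := good (spa_Sp c Q hQ) (1 / 2) (by norm_num)
  choose k hk0 hk using lab_shift c Q hQ
  set K : ℕ := ∑ g : GG r Q, k g with hK
  have hkK : ∀ g, k g ≤ K := fun g =>
    Finset.single_le_sum (f := k) (fun _ _ => Nat.zero_le _) (Finset.mem_univ g)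
  have hK0 : 0 < K := (hk0 0).trans_le (hkK 0)
  -- counting
  have h1 : ∀ N : ℕ, N ≤ 2 * (M.divisors.card * (Fintype.card (GG r Q) *
      (lab c Q (K * N) 1 (0 : GG r Q)).card)) := by
    intro N
    have h2 : ((Ioc 0 N).filter fun n => sp c Q n ∣ M) ⊆
        (M.divisors.filter fun s => 0 < s ∧ sp c Q s = s).biUnion fun s =>
          (Finset.univ : Finset (GG r Q)).biUnion fun g => lab c Q N s g := by
      intro n hn
      rw [mem_filter, mem_Ioc] at hn
      rw [mem_biUnion]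
      refine ⟨sp c Q n, ?_, ?_⟩
      · rw [mem_filter, Nat.mem_divisors]
        exact ⟨⟨hn.2, hM0.ne'⟩, sp_pos c Q hn.1.1, sp_sp c Q hn.1.1⟩
      · rw [mem_biUnion]
        refine ⟨gam c Q n, Finset.mem_univ _, ?_⟩
        rw [mem_lab]
        exact ⟨hn.1, rfl, rfl⟩
    have h3 : ((Ioc 0 N).filter fun n => sp c Q n ∣ M).card ≤
        M.divisors.card * (Fintype.card (GG r Q) * (lab c Q (K * N) 1 (0 : GG r Q)).card) := by
      refine (Finset.card_le_card h2).trans (Finset.card_biUnion_le.trans ?_)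
      have h4 : ∀ s ∈ M.divisors.filter (fun s => 0 < s ∧ sp c Q s = s),
          ((Finset.univ : Finset (GG r Q)).biUnion fun g => lab c Q N s g).card ≤
            Fintype.card (GG r Q) * (lab c Q (K * N) 1 (0 : GG r Q)).card := by
        intro s hs
        rw [mem_filter] at hs
        refine Finset.card_biUnion_le.trans ?_
        have h5 : ∀ g ∈ (Finset.univ : Finset (GG r Q)), (lab c Q N s g).card ≤
            (lab c Q (K * N) 1 (0 : GG r Q)).card := by
          intro g _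
          refine (lab_card_le c Q hs.2.1 hs.2.2 N g).trans ((hk g N).trans ?_)
          exact Finset.card_le_card (lab_mono c Q (Nat.mul_le_mul_right N (hkK g)) 1 0)
        refine (Finset.sum_le_sum h5).trans (le_of_eq ?_)
        rw [Finset.sum_const, smul_eq_mul, Finset.card_univ]
      refine (Finset.sum_le_sum h4).trans ?_
      rw [Finset.sum_const, smul_eq_mul]
      exact Nat.mul_le_mul_right _ (Finset.card_filter_le _ _)
    have h6 := hMc N
    have h7 := Finset.card_filter_add_card_filter_not (s := Ioc 0 N) (fun n => sp c Q n ∣ M)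
    rw [Nat.card_Ioc, Nat.sub_zero] at h7
    have h8 : (((Ioc 0 N).filter fun n => ¬ sp c Q n ∣ M).card : ℝ) ≤ 1 / 2 * N := by
      refine le_trans (le_of_eq ?_) h6
      congr 2
    have h9 : (((Ioc 0 N).filter fun n => sp c Q n ∣ M).card : ℝ) +
        (((Ioc 0 N).filter fun n => ¬ sp c Q n ∣ M).card : ℝ) = N := by exact_mod_cast h7
    have h10 : (N : ℝ) ≤ 2 * (((Ioc 0 N).filter fun n => sp c Q n ∣ M).card : ℝ) := by linarith
    have h11 : N ≤ 2 * ((Ioc 0 N).filter fun n => sp c Q n ∣ M).card := by exact_mod_cast h10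
    exact h11.trans (Nat.mul_le_mul_left 2 h3)
  -- conclusion
  set B : ℝ := 2 * (M.divisors.card * Fintype.card (GG r Q)) * K with hB
  have hdiv : 0 < M.divisors.card := Finset.card_pos.2 ⟨1, Nat.one_mem_divisors.2 hM0.ne'⟩
  have hcard : 0 < Fintype.card (GG r Q) := Fintype.card_pos
  have hB0 : 0 < B := by positivity
  have h2 : ∀ N : ℕ, 0 < N → B⁻¹ ≤ ((lab c Q (K * N) 1 (0 : GG r Q)).card : ℝ) / ((K * N : ℕ) : ℝ) := by
    intro N hN
    have hN' : (0 : ℝ) < ((K * N : ℕ) : ℝ) := by exact_mod_cast Nat.mul_pos hK0 hN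
    rw [le_div_iff₀ hN', inv_mul_le_iff₀ hB0]
    have h3 : (N : ℝ) ≤ 2 * (M.divisors.card * (Fintype.card (GG r Q) *
      ((lab c Q (K * N) 1 (0 : GG r Q)).card : ℝ))) := by exact_mod_cast h1 N
    rw [hB]
    push_cast
    have hK' : (0 : ℝ) ≤ K := by positivity
    nlinarith [mul_le_mul_of_nonneg_left h3 hK']
  have h3 : Tendsto (fun N : ℕ => ((lab c Q (K * N) 1 (0 : GG r Q)).card : ℝ) / ((K * N : ℕ) : ℝ))
      atTop (𝓝 d) :=
    hd.comp (Filter.tendsto_id.const_mul_atTop' hK0)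
  have h4 : B⁻¹ ≤ d := ge_of_tendsto h3 (by
    filter_upwards [eventually_gt_atTop 0] with N hN using h2 N hN)
  exact (inv_pos.2 hB0).trans_le h4

end

end Pool.Agent.H239.MA
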