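import Pool.Agent.H239.MA.Proj

/-! The Turan-Kubilius step with weights which depend on the label of `m`. -/

set_option autoImplicit false
set_option linter.unusedSectionVars false

namespace Pool.Agent.H239.MA

open Finset Filter Topology MeasureTheory
open scoped InnerProductSpace ENNReal
open Pool.Agent.K7.H83.MA

/-- a large class of the refined colouring -/
theorem exists_ref {r : ℕ} (c : ℕ → Fin r) {Q : ℕ} (hQ : 0 < Q) :
    ∃ (r' : ℕ) (c' : ℕ → Fin r') (i' : Fin r'), Big c' i' ∧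
      ∀ p q, p.Prime → q.Prime → c' p = i' → c' q = i' →
        c p = c q ∧ sp c Q p = 1 ∧ sp c Q q = 1 ∧ gam c Q p = gam c Q q := by
  classical
  let c' : ℕ → Fin (r * Q) := fun p => finProdFinEquiv (c p, ⟨p % Q, Nat.mod_lt p hQ⟩)
  have hc' : ∀ p q, c' p = c' q → c p = c q ∧ p ≡ q [MOD Q] := by
    intro p q h
    have h1 := finProdFinEquiv.injective h
    have h2 := congrArg Prod.fst h1
    have h3 := congrArg Prod.snd h1
    refine ⟨h2, ?_⟩
    exact congrArg Fin.val h3
  obtain ⟨i', hi'⟩ := exists_big c'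
  -- comparison of the summabilities
  have hcomp : ∀ E : ℕ → Prop, Spa E → ¬ ∀ p, p.Prime → c' p = i' → E p := by
    intro E hE hall
    apply hi'
    unfold Spa at hE
    refine Summable.of_nonneg_of_le (fun p => by positivity) (fun p => ?_) hE
    by_cases h1 : c' p = i'
    · rw [if_pos h1, if_pos (hall p p.2 h1)]
    · rw [if_neg h1]; positivity
  have hns : ∀ p, p.Prime → c' p = i' → ¬ Sp c Q p := by
    intro p hp hpi hs
    rcases hs with hs | hs
    · refine hcomp (fun q => c q = c p) ?_ fun q _ hqi => (hc' q p (hqi.trans hpi.symm)).1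
      unfold Big at hs
      rw [not_not] at hs
      unfold Spa
      refine hs.congr fun q => ?_
      by_cases h3 : c q = c p
      · rw [if_pos h3, if_pos h3]
      · rw [if_neg h3, if_neg h3]
    · refine hcomp (fun q => q ∣ Q) ((spa_Sp c Q hQ).mono fun q hq => Or.inr hq)
        fun q hq hqi => ?_
      have h1 := (hc' q p (hqi.trans hpi.symm)).2
      have h2 : q ≡ p [MOD p] := h1.of_dvd hs
      have h3 : q ≡ 0 [MOD p] := h2.trans (by unfold Nat.ModEq; simp)
      have h4 : p ∣ q := Nat.modEq_zero_iff_dvd.1 h3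
      have h5 : p = q := (Nat.prime_dvd_prime_iff_eq hp hq).1 h4
      rw [← h5]; exact hs
  refine ⟨r * Q, c', i', hi', fun p q hp hq hpi hqi => ?_⟩
  have h1 := hns p hp hpi
  have h2 := hns q hq hqi
  obtain ⟨h3, h4⟩ := hc' p q (hpi.trans hqi.symm)
  refine ⟨h3, ?_, ?_, ?_⟩
  · rw [sp_prime c Q hp, if_neg h1]
  · rw [sp_prime c Q hq, if_neg h2]
  · unfold gam
    refine Prod.ext ?_ ?_
    · have h5 : un c Q p = un c Q q := by
        apply Units.ext
        rw [un_prime c Q hp, un_prime c Q hq, dif_pos ⟨cop_of c Q hp h1, h1⟩,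
          dif_pos ⟨cop_of c Q hq h2, h2⟩]
        simp only [ZMod.coe_unitOfCoprime]
        exact (ZMod.natCast_eq_natCast_iff _ _ _).2 h4
      rw [h5]
    · funext i
      simp only
      rw [Om_prime c Q i hp, Om_prime c Q i hq]
      by_cases h6 : c p = i
      · rw [if_pos ⟨h1, h6⟩, if_pos ⟨h2, h3 ▸ h6⟩]
      · rw [if_neg (fun h7 => h6 h7.2), if_neg (fun h7 => h6 (h3.trans h7.2))]

variable {X : Type*} [MeasurableSpace X] [StandardBorelSpace X] {μ : Measure X}
  [IsProbabilityMeasure μ]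
variable {r : ℕ} {c : ℕ → Fin r} {T : ℕ → X → X}

/-- the averages over a label vanish on the vectors orthogonal to the vectors `NS` -/
theorem orth_part (h : Sys c μ T) {Q : ℕ} (hQ : 0 < Q) {F1 F2 F4 : X → ℂ} (h1 : BM F1)
    (h2 : BM F2) (h4 : BM F4) {F : Lp ℂ 2 μ} (hF : ∀ y, NS (koop μ T) y → ⟪y, F⟫_ℂ = 0)
    (J : Finset ℕ) :
    Tendsto (fun N : ℕ => ((N : ℂ)⁻¹ * (N : ℂ)⁻¹) • ∑ m ∈ lab c Q N 1 0,
      ∑ n ∈ (Ioc 0 N).filter (fun n => sp c Q n ∈ J),
        mulB μ (ww T F1 F2 F4 m n) (koop μ T (m + n) F)) atTop (𝓝 0) := by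
  classical
  obtain ⟨C1, hC1, hF1⟩ := h1.2
  obtain ⟨C2, hC2, hF2⟩ := h2.2
  obtain ⟨C4, hC4, hF4⟩ := h4.2
  obtain ⟨r', c', i', hi', hcc⟩ := exists_ref c hQ
  have hape := ap_orth c h.FG (F := F) fun y hy => hF y (hy.ns h.FG)
  have hv : ApeS (fun k => koop μ T k F) := by
    intro Q hQ a
    refine (hape Q hQ a).congr fun N => ?_
    congr 1
    refine Finset.sum_congr ?_ fun _ _ => rfl
    ext k
    simp only [mem_filter]
  set B : ℝ := C1 * (C2 * C4) with hB
  have hB0 : 0 ≤ B := by positivity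
  set W : ℕ → ℕ → Lp ℂ 2 μ →L[ℂ] Lp ℂ 2 μ := fun m n =>
    if (sp c Q m = 1 ∧ gam c Q m = 0) ∧ sp c Q n ∈ J then mulB μ (ww T F1 F2 F4 m n) else 0 with hW
  have hmain := tk_main (v := fun k => koop μ T k F) (D := ‖F‖)
    (fun k hk => (koop_norm (h.mp k hk) F).le) hv hi' W (B := B) hB0
    (fun m n x hm hn => by
      rw [hW]
      beta_reduce
      split_ifs with h5
      · exact mulB_norm (ww_BM h h1 h2 h4 hm hn) (ww_bound hF1 hF2 hF4 hC1 hC2 m n) x
      · rw [_root_.zero_apply, norm_zero]; positivity)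
    (fun p q hp hq hpi hqi m n hm hn => by
      obtain ⟨hc, hsp, hsq, hg⟩ := hcc p q hp hq hpi hqi
      have e1 : sp c Q (p * m) = sp c Q m := by rw [sp_mul c Q hp.pos hm, hsp, one_mul]
      have e2 : sp c Q (q * m) = sp c Q m := by rw [sp_mul c Q hq.pos hm, hsq, one_mul]
      have e3 : gam c Q (p * m) = gam c Q (q * m) := by
        rw [gam_mul c Q hp.pos hm, gam_mul c Q hq.pos hm, hg]
      have hmn := Nat.mul_pos hm hn
      have e4 : mulB μ (ww T F1 F2 F4 (p * m) n) = mulB μ (ww T F1 F2 F4 (q * m) n) := by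
        refine mulB_congr (ww_BM h h1 h2 h4 (Nat.mul_pos hp.pos hm) hn)
          (ww_BM h h1 h2 h4 (Nat.mul_pos hq.pos hm) hn) ?_
        have hpq := h.fg p q hp hq hc
        filter_upwards [h.mul p m hp.pos hm, h.mul q m hq.pos hm, h.mul p (m * n) hp.pos hmn,
          h.mul q (m * n) hq.pos hmn, (h.mp m hm).quasiMeasurePreserving.ae hpq,
          (h.mp (m * n) hmn).quasiMeasurePreserving.ae hpq] with x e1 e2 e3 e4 e5 e6
        unfold ww
        rw [mul_assoc p m n, mul_assoc q m n, e1, e2, e3, e4, e5, e6]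
      rw [hW]
      beta_reduce
      rw [e1, e2, e3, e4])
  refine hmain.congr fun N => ?_
  congr 1
  unfold lab
  rw [Finset.sum_filter]
  refine Finset.sum_congr rfl fun m _ => ?_
  by_cases h5 : sp c Q m = 1 ∧ gam c Q m = 0
  · rw [if_pos h5, Finset.sum_filter]
    refine Finset.sum_congr rfl fun n _ => ?_
    rw [hW]
    beta_reduce
    by_cases h6 : sp c Q n ∈ J
    · rw [if_pos ⟨h5, h6⟩, if_pos h6]
    · rw [if_neg (fun h7 => h6 h7.2), if_neg h6, _root_.zero_apply]
  · rw [if_neg h5]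
    refine Finset.sum_eq_zero fun n _ => ?_
    rw [hW]
    beta_reduce
    rw [if_neg (fun h7 => h5 h7.1), _root_.zero_apply]

end Pool.Agent.H239.MA
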