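import Pool.Agent.H239.MA.Chi
import Pool.Agent.H239.MA.Ref

/-! The lower bound of the averages. -/

set_option autoImplicit false
set_option linter.unusedSectionVars false

namespace Pool.Agent.H239.MA

open Finset Filter Topology MeasureTheory
open scoped InnerProductSpace ENNReal
open Pool.Agent.K7.H83.MA

variable {X : Type*} [MeasurableSpace X] [StandardBorelSpace X] {μ : Measure X}
  [IsProbabilityMeasure μ]
variable {r : ℕ} {c : ℕ → Fin r} {T : ℕ → X → X} {q : Fin r → ℕ}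

/-- the weights -/
def wr (T : ℕ → X → X) (a : X → ℝ) (m n : ℕ) : X → ℝ :=
  fun x => a (T m x) * (a (T n x) * a (T (m * n) x))

theorem ww_cx (a : X → ℝ) (m n : ℕ) : ww T (cx a) (cx a) (cx a) m n = cx (wr T a m n) := by
  funext x
  unfold ww cx wr
  push_cast
  rfl

theorem wr_UM (h : Sys c μ T) {a : X → ℝ} (ha : UM a) {m n : ℕ} (hm : 0 < m) (hn : 0 < n) :
    UM (wr T a m n) :=
  (ha.comp (h.mp m hm).measurable).mul ((ha.comp (h.mp n hn).measurable).mul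
    (ha.comp (h.mp _ (Nat.mul_pos hm hn)).measurable))

theorem mulB_cx {f g : X → ℝ} (hf : UM f) (hg : UM g) :
    mulB μ (cx f) (bl μ (cx g)) = bl μ (cx fun x => f x * g x) := by
  rw [mulB_bl hf.bm hg.bm]
  congr 1
  funext x
  unfold cx
  push_cast
  rfl

/-- the terms -/
noncomputable def It (μ : Measure X) [IsProbabilityMeasure μ] (T : ℕ → X → X) (a : X → ℝ)
    (m n : ℕ) : ℝ :=
  (⟪bl μ (cx a), mulB μ (ww T (cx a) (cx a) (cx a) m n) (koop μ T (m + n) (bl μ (cx a)))⟫_ℂ).re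

theorem It_nonneg (h : Sys c μ T) {a : X → ℝ} (ha : UM a) {m n : ℕ} (hm : 0 < m) (hn : 0 < n) :
    0 ≤ It μ T a m n := by
  unfold It
  rw [ww_cx, koop_cx h (by omega : 0 < m + n) ha, mulB_cx (wr_UM h ha hm hn)
    (ha.comp (h.mp _ (by omega : 0 < m + n)).measurable)]
  exact inner_nonneg ha ((wr_UM h ha hm hn).mul (ha.comp (h.mp _ (by omega : 0 < m + n)).measurable))

theorem Jt_ww (h : Sys c μ T) {φ a : X → ℝ} (hφ : UM φ) (ha : UM a) {m n : ℕ} (hm : 0 < m)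
    (hn : 0 < n) : (⟪bl μ (cx a), mulB μ (ww T (cx a) (cx a) (cx a) m n) (bl μ (cx φ))⟫_ℂ).re =
      Jt μ T φ a m n := by
  unfold Jt
  rw [ww_cx, mulB_cx (wr_UM h ha hm hn) hφ, koop_cx h hm (Gn_UM h ha hn),
    inner_cx ha ((wr_UM h ha hm hn).mul hφ),
    inner_cx (hφ.mul (Gn_UM h ha hn)) ((Gn_UM h ha hn).comp (h.mp m hm).measurable)]
  congr 2
  refine integral_congr_ae ?_
  filter_upwards [h.mul n m hn hm] with x hx
  unfold wr Gn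
  rw [mul_comm m n, hx]
  ring

theorem wr_bound (h : Sys c μ T) {a : X → ℝ} (ha : UM a) {m n : ℕ} (hm : 0 < m) (hn : 0 < n)
    (z : Lp ℂ 2 μ) : ‖mulB μ (ww T (cx a) (cx a) (cx a) m n) z‖ ≤ ‖z‖ := by
  rw [ww_cx]
  have h1 := mulB_norm (wr_UM h ha hm hn).bm (C := 1) (fun x => by
    unfold cx
    rw [Complex.norm_real, Real.norm_of_nonneg ((wr_UM h ha hm hn).2.1 x)]
    exact (wr_UM h ha hm hn).2.2 x) z
  rwa [one_mul] at h1

/-- the pointwise lower bound -/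
theorem It_low (h : Sys c μ T) {φ a : X → ℝ} (hφ : UM φ) (ha : UM a) {y : Lp ℂ 2 μ} {ε : ℝ}
    (hy : ‖bl μ (cx φ) - y‖ ≤ ε) {m n : ℕ} (hm : 0 < m) (hn : 0 < n) (χ : ℝ)
    (hχ : (koop μ T (m + n) y = y ∧ χ = 0) ∨ χ = 1) :
    (⟪bl μ (cx a), mulB μ (ww T (cx a) (cx a) (cx a) m n)
      (koop μ T (m + n) (bl μ (cx a) - bl μ (cx φ)))⟫_ℂ).re + Jt μ T φ a m n -
      (2 * ε + 2 * χ) ≤ It μ T a m n := by
  have hε : 0 ≤ ε := (norm_nonneg _).trans hy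
  have hmn : 0 < m + n := by omega
  have h1 : It μ T a m n = (⟪bl μ (cx a), mulB μ (ww T (cx a) (cx a) (cx a) m n)
      (koop μ T (m + n) (bl μ (cx a) - bl μ (cx φ)))⟫_ℂ).re + Jt μ T φ a m n +
      (⟪bl μ (cx a), mulB μ (ww T (cx a) (cx a) (cx a) m n)
        (koop μ T (m + n) (bl μ (cx φ)) - bl μ (cx φ))⟫_ℂ).re := by
    rw [← Jt_ww h hφ ha hm hn]
    unfold It
    rw [← Complex.add_re, ← Complex.add_re, ← inner_add_right, ← inner_add_right, ← map_add,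
      ← map_add]
    congr 3
    rw [map_sub]
    abel_nf
  have h2 : ‖koop μ T (m + n) (bl μ (cx φ)) - bl μ (cx φ)‖ ≤ 2 * ε + 2 * χ := by
    rcases hχ with ⟨h3, h4⟩ | h3
    · rw [h4]
      have h5 : koop μ T (m + n) (bl μ (cx φ)) - bl μ (cx φ) =
          koop μ T (m + n) (bl μ (cx φ) - y) - (bl μ (cx φ) - y) := by
        rw [map_sub, h3]; abel
      rw [h5]
      refine (norm_sub_le _ _).trans ?_
      rw [koop_norm (h.mp _ hmn)]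
      linarith
    · rw [h3]
      refine (norm_sub_le _ _).trans ?_
      rw [koop_norm (h.mp _ hmn)]
      have := hφ.norm (μ := μ)
      linarith
  have h3 : |(⟪bl μ (cx a), mulB μ (ww T (cx a) (cx a) (cx a) m n)
        (koop μ T (m + n) (bl μ (cx φ)) - bl μ (cx φ))⟫_ℂ).re| ≤ 2 * ε + 2 * χ := by
    refine (Complex.abs_re_le_norm _).trans ((norm_inner_le_norm _ _).trans ?_)
    calc ‖bl μ (cx a)‖ * _ ≤ 1 * _ := mul_le_mul_of_nonneg_right ha.norm (norm_nonneg _)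
      _ ≤ ‖koop μ T (m + n) (bl μ (cx φ)) - bl μ (cx φ)‖ := by
        rw [one_mul]; exact wr_bound h ha hm hn _
      _ ≤ _ := h2
  have h4 := (abs_le.1 h3).1
  linarith

/-- the averages as inner products -/
theorem RN_eq (a : X → ℝ) (N : ℕ) :
    (⟪bl μ (cx a), SN μ T (cx a) (cx a) (cx a) N (bl μ (cx a))⟫_ℂ).re =
      ((N : ℝ)⁻¹ * (N : ℝ)⁻¹) * ∑ m ∈ Ioc 0 N, ∑ n ∈ Ioc 0 N, It μ T a m n := by
  have hNc : ((N : ℂ)⁻¹ * (N : ℂ)⁻¹) = (((N : ℝ)⁻¹ * (N : ℝ)⁻¹ : ℝ) : ℂ) := by push_cast; rfl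
  rw [SN_apply, inner_smul_right, hNc, Complex.re_ofReal_mul, inner_sum, Complex.re_sum]
  congr 1
  refine Finset.sum_congr rfl fun m _ => ?_
  rw [inner_sum, Complex.re_sum]
  rfl

theorem main_low (h : Sys c μ T) {Q : ℕ} (hQ : 0 < Q) {π : Fin r → ℕ} (hπ : Rep c π)
    {φ a : X → ℝ} (hφ : UM φ) (ha : UM a) {y : Lp ℂ 2 μ} {ε : ℝ} (hy : ‖bl μ (cx φ) - y‖ ≤ ε)
    {M : ℕ} (hM : 0 < M)
    (hMc : ∀ N : ℕ, (((Ioc 0 N).filter fun n => ¬ sp c Q n ∣ M).card : ℝ) ≤ ε * N)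
    {N : ℕ} (hN : 0 < N)
    (hex : ∀ E : Finset ℕ, (∀ k ∈ E, (0 < k ∧ k ≤ 2 * N) ∧ k ≡ 1 [MOD Q] ∧ koop μ T k y ≠ y) →
      (E.card : ℝ) ≤ ε * (2 * N / Q)) {τ : ℝ} (hτ : 0 ≤ τ) [NeZero Q] [NeZero (Nat.totient Q)] :
    (⟪bl μ (cx a), ((N : ℂ)⁻¹ * (N : ℂ)⁻¹) • ∑ m ∈ lab c Q N 1 0, ∑ n ∈ SS c Q M N,
        mulB μ (ww T (cx a) (cx a) (cx a) m n)
          (koop μ T (m + n) (bl μ (cx a) - bl μ (cx φ)))⟫_ℂ).re +
    (∑ x ∈ Js c Q M ×ˢ (Finset.univ : Finset (GG r Q)), (N : ℝ)⁻¹ * ∑ n ∈ lab c Q N x.1 x.2,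
      ((N : ℝ)⁻¹ * ∑ m ∈ lab c Q N 1 0, Jt μ T φ a m n -
        ((lab c Q N 1 (0 : GG r Q)).card / N : ℝ) * Dt μ T (qq c Q π) φ a n)) +
    ((lab c Q N 1 (0 : GG r Q)).card / N : ℝ) * ((N : ℝ)⁻¹ * ∑ n ∈ lab c 1 (N / Q) 1 (0 : GG r 1),
      (2 * τ * bt μ T φ a (Q * n) - τ ^ 2) - 2 * τ * ε * (Q : ℝ)⁻¹ - 6 * ε * (Q : ℝ)⁻¹) ≤
    ((N : ℝ)⁻¹ * (N : ℝ)⁻¹) * ∑ m ∈ Ioc 0 N, ∑ n ∈ Ioc 0 N, It μ T a m n := by
  classical
  have hε : 0 ≤ ε := (norm_nonneg _).trans hy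
  have hNr : (0 : ℝ) < N := by exact_mod_cast hN
  have hQr : (0 : ℝ) < Q := by exact_mod_cast hQ
  have hNN : (0 : ℝ) ≤ (N : ℝ)⁻¹ * (N : ℝ)⁻¹ := by positivity
  have hNc : ((N : ℂ)⁻¹ * (N : ℂ)⁻¹) = (((N : ℝ)⁻¹ * (N : ℝ)⁻¹ : ℝ) : ℂ) := by push_cast; rfl
  -- restriction
  have h1 : ∑ m ∈ lab c Q N 1 (0 : GG r Q), ∑ n ∈ SS c Q M N, It μ T a m n ≤
      ∑ m ∈ Ioc 0 N, ∑ n ∈ Ioc 0 N, It μ T a m n := by
    have h2 : ∀ m ∈ lab c Q N 1 (0 : GG r Q), ∑ n ∈ SS c Q M N, It μ T a m n ≤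
        ∑ n ∈ Ioc 0 N, It μ T a m n := by
      intro m hm
      refine Finset.sum_le_sum_of_subset_of_nonneg (fun n hn => ?_) (fun n hn _ => ?_)
      · exact mem_Ioc.2 ((mem_SS c Q).1 hn).1
      · exact It_nonneg h ha ((mem_lab c Q).1 hm).1.1 (mem_Ioc.1 hn).1
    refine (Finset.sum_le_sum h2).trans ?_
    refine Finset.sum_le_sum_of_subset_of_nonneg (fun m hm => ?_) (fun m hm _ => ?_)
    · exact mem_Ioc.2 ((mem_lab c Q).1 hm).1
    · exact Finset.sum_nonneg fun n hn => It_nonneg h ha (mem_Ioc.1 hm).1 (mem_Ioc.1 hn).1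
  -- pointwise bound
  set χ : ℕ → ℕ → ℝ := fun m n => if koop μ T (m + n) y = y then 0 else 1 with hχ
  have h2 : ∑ m ∈ lab c Q N 1 (0 : GG r Q), ∑ n ∈ SS c Q M N,
      ((⟪bl μ (cx a), mulB μ (ww T (cx a) (cx a) (cx a) m n)
      (koop μ T (m + n) (bl μ (cx a) - bl μ (cx φ)))⟫_ℂ).re + Jt μ T φ a m n -
      (2 * ε + 2 * χ m n)) ≤ ∑ m ∈ lab c Q N 1 (0 : GG r Q), ∑ n ∈ SS c Q M N, It μ T a m n := by
    refine Finset.sum_le_sum fun m hm => Finset.sum_le_sum fun n hn => ?_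
    refine It_low h hφ ha hy ((mem_lab c Q).1 hm).1.1 ((mem_SS c Q).1 hn).1.1 _ ?_
    rw [hχ]
    beta_reduce
    by_cases h3 : koop μ T (m + n) y = y
    · left; exact ⟨h3, if_pos h3⟩
    · right; exact if_neg h3
  -- the exceptional pairs
  have h3 : ∑ m ∈ lab c Q N 1 (0 : GG r Q), ∑ n ∈ SS c Q M N, (2 * ε + 2 * χ m n) ≤
      (lab c Q N 1 (0 : GG r Q)).card * (6 * ε * (N / Q)) := by
    have h4 : ∀ m ∈ lab c Q N 1 (0 : GG r Q), ∑ n ∈ SS c Q M N, (2 * ε + 2 * χ m n) ≤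
        6 * ε * (N / Q) := by
      intro m hm
      have hm1 := lab_mod c Q hm
      rw [Finset.sum_add_distrib, Finset.sum_const, nsmul_eq_mul, ← Finset.mul_sum]
      have h5 : ((SS c Q M N).card : ℝ) * (2 * ε) ≤ N / Q * (2 * ε) :=
        mul_le_mul_of_nonneg_right (SS_card c Q hQ hM N) (by positivity)
      have h6 : ∑ n ∈ SS c Q M N, χ m n ≤ ε * (2 * N / Q) := by
        have h7 : ∑ n ∈ SS c Q M N, χ m n =
            (((SS c Q M N).filter fun n => ¬ koop μ T (m + n) y = y).card : ℝ) := by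
          rw [hχ]
          beta_reduce
          rw [Finset.card_filter, Nat.cast_sum]
          refine Finset.sum_congr rfl fun n _ => ?_
          by_cases h8 : koop μ T (m + n) y = y
          · rw [if_pos h8, if_neg (not_not.2 h8)]; simp
          · rw [if_neg h8, if_pos h8]; simp
        rw [h7]
        have h8 : ((SS c Q M N).filter fun n => ¬ koop μ T (m + n) y = y).card =
            (((SS c Q M N).filter fun n => ¬ koop μ T (m + n) y = y).image fun n => m + n).card :=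
          (Finset.card_image_of_injective _ (add_right_injective m)).symm
        rw [h8]
        refine hex _ fun k hk => ?_
        rw [Finset.mem_image] at hk
        obtain ⟨n, hn, rfl⟩ := hk
        rw [mem_filter] at hn
        have hn1 := (mem_SS c Q).1 hn.1
        have hm2 := (mem_lab c Q).1 hm
        refine ⟨⟨by omega, by omega⟩, ?_, hn.2⟩
        have h9 : n ≡ 0 [MOD Q] := Nat.modEq_zero_iff_dvd.2 (SS_dvd c Q hQ hM hn.1)
        exact hm1.add h9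
      have h7 : 6 * ε * ((N : ℝ) / Q) = N / Q * (2 * ε) + 2 * (ε * (2 * N / Q)) := by ring
      rw [h7]
      linarith
    refine (Finset.sum_le_sum h4).trans ?_
    rw [Finset.sum_const, nsmul_eq_mul]
  -- the sum of the correlations
  have h4 : ((N : ℝ)⁻¹ * (N : ℝ)⁻¹) * ∑ m ∈ lab c Q N 1 (0 : GG r Q), ∑ n ∈ SS c Q M N,
      Jt μ T φ a m n = (∑ x ∈ Js c Q M ×ˢ (Finset.univ : Finset (GG r Q)), (N : ℝ)⁻¹ *
        ∑ n ∈ lab c Q N x.1 x.2, ((N : ℝ)⁻¹ * ∑ m ∈ lab c Q N 1 0, Jt μ T φ a m n -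
          ((lab c Q N 1 (0 : GG r Q)).card / N : ℝ) * Dt μ T (qq c Q π) φ a n)) +
      ((lab c Q N 1 (0 : GG r Q)).card / N : ℝ) * ((N : ℝ)⁻¹ * ∑ n ∈ SS c Q M N,
        Dt μ T (qq c Q π) φ a n) := by
    rw [← Finset.mul_sum, ← SS_lab c Q M N, Finset.sum_sub_distrib, ← Finset.mul_sum,
      ← Finset.mul_sum, Finset.sum_comm]
    ring
  have h5 : (N : ℝ)⁻¹ * ∑ n ∈ lab c 1 (N / Q) 1 (0 : GG r 1),
      (2 * τ * bt μ T φ a (Q * n) - τ ^ 2) - 2 * τ * ε * (Q : ℝ)⁻¹ ≤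
      (N : ℝ)⁻¹ * ∑ n ∈ SS c Q M N, Dt μ T (qq c Q π) φ a n := by
    refine (SS_low h hQ hφ ha hτ hM hMc hε hN).trans ?_
    refine mul_le_mul_of_nonneg_left (Finset.sum_le_sum fun n hn => ?_) (by positivity)
    exact Dt_low h hQ hπ hφ ha τ ((mem_SS c Q).1 hn).1.1
  have h6 : (0 : ℝ) ≤ ((lab c Q N 1 (0 : GG r Q)).card / N : ℝ) := by positivity
  have h7 := mul_le_mul_of_nonneg_left h5 h6
  have h8 := mul_le_mul_of_nonneg_left (h2.trans h1) hNN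
  have h9 := mul_le_mul_of_nonneg_left h3 hNN
  have h10 : (⟪bl μ (cx a), ((N : ℂ)⁻¹ * (N : ℂ)⁻¹) • ∑ m ∈ lab c Q N 1 (0 : GG r Q),
      ∑ n ∈ SS c Q M N, mulB μ (ww T (cx a) (cx a) (cx a) m n)
          (koop μ T (m + n) (bl μ (cx a) - bl μ (cx φ)))⟫_ℂ).re =
      ((N : ℝ)⁻¹ * (N : ℝ)⁻¹) * ∑ m ∈ lab c Q N 1 (0 : GG r Q), ∑ n ∈ SS c Q M N,
        (⟪bl μ (cx a), mulB μ (ww T (cx a) (cx a) (cx a) m n)
          (koop μ T (m + n) (bl μ (cx a) - bl μ (cx φ)))⟫_ℂ).re := by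
    rw [inner_smul_right, hNc, Complex.re_ofReal_mul, inner_sum, Complex.re_sum]
    congr 1
    refine Finset.sum_congr rfl fun m _ => ?_
    rw [inner_sum, Complex.re_sum]
  have h11 : ((N : ℝ)⁻¹ * (N : ℝ)⁻¹) * ((lab c Q N 1 (0 : GG r Q)).card * (6 * ε * (N / Q))) =
      ((lab c Q N 1 (0 : GG r Q)).card / N : ℝ) * (6 * ε * (Q : ℝ)⁻¹) := by
    field_simp
  rw [h11] at h9
  simp only [Finset.sum_sub_distrib, Finset.sum_add_distrib] at h8 h9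
  rw [h10]
  simp only [mul_sub, mul_add] at h7 h8 h9 h4 ⊢
  linarith

end Pool.Agent.H239.MA
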