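import Pool.Graph.R_pool_sql_team_seeded_35f281b4.K7.H83.MA.Ape

/-! Vectors which are fixed by most of the operators `u k`, `k ≡ 1` modulo `Q`. -/

set_option autoImplicit false
set_option linter.unusedSectionVars false

namespace Pool.Agent.H239.MA

open Finset Filter Topology
open scoped InnerProductSpace
open Pool.Agent.K7.H83.MA

variable {H : Type*} [NormedAddCommGroup H] [InnerProductSpace ℂ H] [CompleteSpace H]

open scoped Classical in
/-- vectors which are fixed by most of the operators `u k`, `k ≡ 1` modulo `Q`, when `Q` is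
divisible enough -/
def NS (u : ℕ → H →L[ℂ] H) (y : H) : Prop :=
  ∀ ε : ℝ, 0 < ε → ∃ Q₀ : ℕ, 0 < Q₀ ∧ ∀ Q : ℕ, 0 < Q → Q₀ ∣ Q → ∃ N₀ : ℕ, ∀ N : ℕ, N₀ ≤ N →
    (((Ioc 0 N).filter fun k => k ≡ 1 [MOD Q] ∧ u k y ≠ y).card : ℝ) ≤ ε * (N / Q)

/-- the eigenvectors -/
def Eg {r : ℕ} (c : ℕ → Fin r) (u : ℕ → H →L[ℂ] H) (y : H) : Prop :=
  ∃ Q : ℕ, 0 < Q ∧ ∃ (ψ : AddChar (Additive (ZMod Q)ˣ) ℂ) (z : Fin r → ℂ) (π : Fin r → ℕ),
    Rep c π ∧ (∀ i, Big c i → Gd c Q ψ i (z i)) ∧ ∀ i, Big c i → u (π i) y = z i • y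

section

variable {r : ℕ} (c : ℕ → Fin r) (Q : ℕ)

theorem eg_form (hQ : 0 < Q) {u : ℕ → H →L[ℂ] H} (hu : FG c u) {π : Fin r → ℕ} (hπ : Rep c π)
    (ψ : AddChar (Additive (ZMod Q)ˣ) ℂ) (z : Fin r → ℂ)
    (hsp : ∀ i, Big c i → Gd c Q ψ i (z i)) {y : H}
    (hy : ∀ i, Big c i → u (π i) y = z i • y) :
    ∃ E : ℕ → Prop, Spa E ∧ (∀ p, p.Prime → ¬ E p → Nat.Coprime p Q) ∧
      ∀ n, 0 < n → u n y = ψ (-(Additive.ofMul (up Q E n))) • u (prt E n) y := by
  classical
  set E : ℕ → Prop := fun p => bu c Q ψ p * z (c p) ≠ 1 with hEdef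
  have hEsp : ∀ p, ¬ E p → ¬ Sp c Q p := by
    intro p hp hs
    apply hp
    rw [hEdef]
    simp only [bu, if_pos hs, zero_mul]
    exact zero_ne_one
  have hcop : ∀ p, p.Prime → ¬ E p → Nat.Coprime p Q := fun p hp h =>
    cop_of c Q hp (hEsp p h)
  have hSpa : Spa E := by
    have h1 : ∀ i : Fin r, Spa (fun p => Big c i ∧ (c p = i ∧ bu c Q ψ p * z i ≠ 1)) := by
      intro i
      by_cases hi : Big c i
      · exact (hsp i hi).mono fun p hp => hp.2
      · unfold Spa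
        refine summable_zero.congr fun p => ?_
        rw [if_neg (fun h => hi h.1)]
    refine ((spa_Sp c Q hQ).or (Spa.ex h1)).mono fun p hp => ?_
    by_cases hs : Sp c Q p
    · exact Or.inl hs
    · right
      have hb : Big c (c p) := by
        by_contra h2; exact hs (Or.inl h2)
      exact ⟨c p, hb, rfl, hp⟩
  refine ⟨E, hSpa, hcop, ?_⟩
  intro n hn
  induction n using Nat.recOnMul with
  | zero => omega
  | one =>
    unfold up prt
    rw [ext_one, ext_one, ofMul_one, neg_zero, AddChar.map_zero_eq_one, one_smul]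
  | prime p hp =>
    unfold up prt
    rw [ext_prime _ hp, ext_prime _ hp]
    by_cases h : E p
    · rw [dif_neg (fun h1 => h1.2 h), if_pos h, ofMul_one, neg_zero, AddChar.map_zero_eq_one,
        one_smul]
    · have hs := hEsp p h
      have hb : Big c (c p) := by
        by_contra h2; exact hs (Or.inl h2)
      rw [dif_pos ⟨hcop p hp h, h⟩, if_neg h, hu.one]
      have h1 : u p = u (π (c p)) := hu.fg p _ hp (hπ.prime _ hb) (hπ.col _ hb).symm
      rw [h1, hy _ hb]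
      have h2 : bu c Q ψ p * z (c p) = 1 := by
        by_contra h3; exact h h3
      unfold bu at h2
      rw [if_neg hs, un_prime c Q hp, dif_pos ⟨hcop p hp h, hs⟩] at h2
      have h3 : ψ (-(Additive.ofMul (ZMod.unitOfCoprime p (hcop p hp h)))) = z (c p) := by
        have h4 : ψ (-(Additive.ofMul (ZMod.unitOfCoprime p (hcop p hp h)))) *
            ψ (Additive.ofMul (ZMod.unitOfCoprime p (hcop p hp h))) = 1 := by
          rw [← AddChar.map_add_eq_mul, neg_add_cancel, AddChar.map_zero_eq_one]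
        calc ψ (-(Additive.ofMul (ZMod.unitOfCoprime p (hcop p hp h))))
            = ψ (-(Additive.ofMul (ZMod.unitOfCoprime p (hcop p hp h)))) *
              (ψ (Additive.ofMul (ZMod.unitOfCoprime p (hcop p hp h))) * z (c p)) := by
              rw [h2, mul_one]
          _ = z (c p) := by rw [← mul_assoc, h4, one_mul]
      rw [h3]; rfl
  | mul a b ha hb =>
    have h1 : 0 < a := Nat.pos_of_mul_pos_right hn
    have h2 : 0 < b := Nat.pos_of_mul_pos_left hn
    have h3 : up Q E (a * b) = up Q E a * up Q E b := ext_mul _ h1 h2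
    rw [h3, prt_mul E h1 h2, hu.mul a b h1 h2, hu.mul _ _ (prt_pos E h1) (prt_pos E h2),
      ofMul_mul, neg_add, AddChar.map_add_eq_mul]
    change u a (u b y) = _
    rw [hb h2, map_smul]
    have h4 : u a (u (prt E b) y) = u (prt E b) (u a y) := by
      have := hu.comm h1 (prt_pos E h2)
      exact congrArg (fun A : H →L[ℂ] H => A y) this
    rw [h4, ha h1, map_smul, smul_smul, mul_comm]
    have h5 : u (prt E b) (u (prt E a) y) = (u (prt E a) * u (prt E b)) y := by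
      have := hu.comm (prt_pos E h2) (prt_pos E h1)
      exact congrArg (fun A : H →L[ℂ] H => A y) this
    rw [h5]

end

theorem prt_eq_one {E : ℕ → Prop} {k : ℕ} (h : ∀ p, p.Prime → p ∣ k → ¬ E p) : prt E k = 1 := by
  classical
  unfold prt Pool.Agent.K7.H83.MA.ext
  refine Finset.prod_eq_one fun p hp => ?_
  rw [Nat.support_factorization, Nat.mem_primeFactors] at hp
  beta_reduce
  rw [if_neg (h p hp.1 hp.2.1), one_pow]

/-- tails of sparse sets of primes -/
theorem spa_tail {E : ℕ → Prop} (hE : Spa E) (ε : ℝ) (hε : 0 < ε) : ∃ w : ℕ, ∀ P : Finset ℕ,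
    (∀ p ∈ P, p.Prime ∧ E p ∧ w < p) → ∑ p ∈ P, (1 : ℝ) / p ≤ ε := by
  classical
  unfold Spa at hE
  obtain ⟨S, hS⟩ := (summable_iff_vanishing_norm.1 hE) ε hε
  obtain ⟨w, hw⟩ : ∃ P : ℕ, ∀ p ∈ S, (p : ℕ) ≤ P :=
    ⟨S.sup (fun p => (p : ℕ)), fun p hp => Finset.le_sup (f := fun p : Nat.Primes => (p : ℕ)) hp⟩
  refine ⟨w, fun P hP => ?_⟩
  have h1 := hS (P.attach.image fun p => mkP p.1 (hP p.1 p.2).1) (by
    rw [Finset.disjoint_left]
    intro q hq hqS
    rw [Finset.mem_image] at hq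
    obtain ⟨p, _, rfl⟩ := hq
    have h2 := hw _ hqS
    have h3 := (hP p.1 p.2).2.2
    rw [mkP_coe] at h2
    omega)
  rw [Finset.sum_image (fun a _ b _ hab => by
    apply Subtype.ext
    exact congrArg (fun q : Nat.Primes => (q : ℕ)) hab)] at h1
  refine le_trans (le_of_eq ?_) ((le_abs_self _).trans h1.le)
  rw [← Finset.sum_attach]
  refine Finset.sum_congr rfl fun p _ => ?_
  rw [mkP_coe, if_pos (hP p.1 p.2).2.1]

/-- counting in the intersection of a progression and of the multiples of a prime -/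
theorem cnt_prog {p Q : ℕ} (hp : p.Prime) (hpQ : ¬ p ∣ Q) (N : ℕ) :
    (((Ioc 0 N).filter fun k => k ≡ 1 [MOD Q] ∧ p ∣ k).card : ℝ) ≤ N / Q * (1 / p) + 1 := by
  classical
  have h1 : ((Ioc 0 N).filter fun k => k ≡ 1 [MOD Q] ∧ p ∣ k).card ≤ N / (Q * p) + 1 := by
    have h2 : ((Finset.range (N / (Q * p) + 1))).card = N / (Q * p) + 1 := Finset.card_range _
    rw [← h2]
    refine Finset.card_le_card_of_injOn (fun k => k / (Q * p)) (fun k hk => ?_)
      (fun a ha b hb hab => ?_)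
    · rw [Finset.mem_coe, mem_filter, mem_Ioc] at hk
      beta_reduce
      rw [Finset.mem_coe, Finset.mem_range]
      exact Nat.lt_succ_of_le (Nat.div_le_div_right hk.1.2)
    · rw [Finset.mem_coe, mem_filter] at ha hb
      have hcop : Nat.Coprime Q p := ((Nat.Prime.coprime_iff_not_dvd hp).2 hpQ).symm
      have h3 : a ≡ b [MOD Q * p] := by
        rw [← Nat.modEq_and_modEq_iff_modEq_mul hcop]
        refine ⟨ha.2.1.trans hb.2.1.symm, ?_⟩
        exact ((Nat.modEq_zero_iff_dvd.2 ha.2.2).trans (Nat.modEq_zero_iff_dvd.2 hb.2.2).symm)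
      have h4 := Nat.div_add_mod a (Q * p)
      have h5 := Nat.div_add_mod b (Q * p)
      have h6 : a / (Q * p) = b / (Q * p) := hab
      have h7 : a % (Q * p) = b % (Q * p) := h3
      rw [← h4, ← h5, h6, h7]
  have h2 : ((N / (Q * p) : ℕ) : ℝ) ≤ N / Q * (1 / p) := by
    refine Nat.cast_div_le.trans (le_of_eq ?_)
    push_cast
    rw [div_mul_div_comm, mul_one]
  have h3 : (((Ioc 0 N).filter fun k => k ≡ 1 [MOD Q] ∧ p ∣ k).card : ℝ) ≤
      ((N / (Q * p) : ℕ) : ℝ) + 1 := by exact_mod_cast h1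
  linarith

/-- eigenvectors are fixed by most of the operators -/
theorem Eg.ns {r : ℕ} {c : ℕ → Fin r} {u : ℕ → H →L[ℂ] H} (hu : FG c u) {y : H}
    (hy : Eg c u y) : NS u y := by
  classical
  obtain ⟨Q₁, hQ₁, ψ, z, π, hπ, hgd, hev⟩ := hy
  obtain ⟨E, hE, hcop, hform⟩ := eg_form c Q₁ hQ₁ hu hπ ψ z hgd hev
  intro ε hε
  obtain ⟨w, hw⟩ := spa_tail hE (ε / 2) (by positivity)
  set PP : Finset ℕ := (Finset.range (w + 1)).filter fun p => p.Prime ∧ E p with hPP
  have hPP0 : 0 < ∏ p ∈ PP, p := Finset.prod_pos fun p hp => (mem_filter.1 hp).2.1.pos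
  refine ⟨Q₁ * ∏ p ∈ PP, p, Nat.mul_pos hQ₁ hPP0, fun Q hQ hdv => ?_⟩
  have hQr : (0 : ℝ) < Q := by exact_mod_cast hQ
  obtain ⟨K, hK⟩ := spa_tail hE (ε / (4 * Q)) (by positivity)
  obtain ⟨N₀, hN₀⟩ := exists_nat_ge ((K + 1 : ℝ) / (ε / (4 * Q)))
  refine ⟨N₀, fun N hN => ?_⟩
  have hN' : (K + 1 : ℝ) / (ε / (4 * Q)) ≤ N := hN₀.trans (by exact_mod_cast hN)
  rw [div_le_iff₀ (by positivity)] at hN'
  set P : Finset ℕ := (Ioc w N).filter fun p => p.Prime ∧ E p ∧ ¬ p ∣ Q with hP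
  -- the exceptional integers
  have h1 : ((Ioc 0 N).filter fun k => k ≡ 1 [MOD Q] ∧ u k y ≠ y) ⊆
      P.biUnion fun p => (Ioc 0 N).filter fun k => k ≡ 1 [MOD Q] ∧ p ∣ k := by
    intro k hk
    rw [mem_filter] at hk
    obtain ⟨hkN, hk1, hk2⟩ := hk
    have hk0 := (mem_Ioc.1 hkN).1
    by_contra hcon
    apply hk2
    have h3 : ∀ p, p.Prime → p ∣ k → ¬ E p := by
      intro p hp hpk hEp
      have hnd : ¬ p ∣ Q := by
        intro hpQ
        have h4 : k ≡ 1 [MOD p] := hk1.of_dvd hpQ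
        have h5 : 0 ≡ 1 [MOD p] := (Nat.modEq_zero_iff_dvd.2 hpk).symm.trans h4
        have h6 := (Nat.modEq_iff_dvd' (Nat.zero_le 1)).1 h5
        exact hp.one_lt.ne' (Nat.dvd_one.1 h6)
      have hpw : w < p := by
        by_contra hle
        apply hnd
        have h7 : p ∈ PP := by
          rw [hPP, mem_filter, Finset.mem_range]
          exact ⟨by omega, hp, hEp⟩
        exact (Dvd.dvd.mul_left (Finset.dvd_prod_of_mem (fun x => x) h7) Q₁).trans hdv
      apply hcon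
      rw [mem_biUnion]
      refine ⟨p, ?_, ?_⟩
      · rw [hP, mem_filter, mem_Ioc]
        exact ⟨⟨hpw, (Nat.le_of_dvd hk0 hpk).trans (mem_Ioc.1 hkN).2⟩, hp, hEp, hnd⟩
      · rw [mem_filter]
        exact ⟨hkN, hk1, hpk⟩
    have h4 : prt E k = 1 := prt_eq_one h3
    have h5 : fr E k = k := by
      have := prt_fr E hk0
      rw [h4, one_mul] at this
      exact this.symm
    have h6 : up Q₁ E k = 1 := by
      apply Units.ext
      rw [← fr_up Q₁ E hcop hk0, h5]
      have h7 : k ≡ 1 [MOD Q₁] := hk1.of_dvd ((Dvd.intro _ rfl).trans hdv)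
      have h8 := (ZMod.natCast_eq_natCast_iff _ _ _).2 h7
      rw [h8]
      simp
    rw [hform k hk0, h4, h6, ofMul_one, neg_zero, AddChar.map_zero_eq_one, one_smul, hu.one]
    rfl
  have h2 : (((Ioc 0 N).filter fun k => k ≡ 1 [MOD Q] ∧ u k y ≠ y).card : ℝ) ≤
      ∑ p ∈ P, ((N : ℝ) / Q * (1 / p) + 1) := by
    have h3 := (Finset.card_le_card h1).trans Finset.card_biUnion_le
    have h4 : (((Ioc 0 N).filter fun k => k ≡ 1 [MOD Q] ∧ u k y ≠ y).card : ℝ) ≤
        ∑ p ∈ P, (((Ioc 0 N).filter fun k => k ≡ 1 [MOD Q] ∧ p ∣ k).card : ℝ) := by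
      exact_mod_cast h3
    refine h4.trans (Finset.sum_le_sum fun p hp => ?_)
    rw [hP, mem_filter] at hp
    exact cnt_prog hp.2.1 hp.2.2.2 N
  have h3 : ∑ p ∈ P, (1 : ℝ) / p ≤ ε / 2 := hw P fun p hp => by
    rw [hP, mem_filter, mem_Ioc] at hp
    exact ⟨hp.2.1, hp.2.2.1, hp.1.1⟩
  have h4 : (P.card : ℝ) ≤ K + 1 + N * (ε / (4 * Q)) := by
    have h5 : P ⊆ Finset.range (K + 1) ∪ P.filter fun p => K < p := by
      intro p hp
      rw [mem_union, Finset.mem_range, mem_filter]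
      by_cases hpK : K < p
      · exact Or.inr ⟨hp, hpK⟩
      · left; omega
    have h6 := (Finset.card_le_card h5).trans (Finset.card_union_le _ _)
    rw [Finset.card_range] at h6
    have h7 : ((P.filter fun p => K < p).card : ℝ) ≤ N * (ε / (4 * Q)) := by
      have h8 := hK (P.filter fun p => K < p) fun p hp => by
        rw [mem_filter, hP, mem_filter] at hp
        exact ⟨hp.1.2.1, hp.1.2.2.1, hp.2⟩
      have h9 : ((P.filter fun p => K < p).card : ℝ) ≤
          N * ∑ p ∈ P.filter (fun p => K < p), (1 : ℝ) / p := by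
        rw [Finset.mul_sum, Finset.card_eq_sum_ones, Nat.cast_sum]
        refine Finset.sum_le_sum fun p hp => ?_
        rw [mem_filter, hP, mem_filter, mem_Ioc] at hp
        have hp0 : (0 : ℝ) < p := by exact_mod_cast hp.1.2.1.pos
        have hpN : (p : ℝ) ≤ N := by exact_mod_cast hp.1.1.2
        rw [mul_one_div, Nat.cast_one, le_div_iff₀ hp0, one_mul]
        exact hpN
      exact h9.trans (mul_le_mul_of_nonneg_left h8 (by positivity))
    have h10 : (P.card : ℝ) ≤ (K + 1 : ℝ) + ((P.filter fun p => K < p).card : ℝ) := by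
      exact_mod_cast h6
    linarith
  have hNQ : (0 : ℝ) ≤ N / Q := by positivity
  have h5 : ∑ p ∈ P, ((N : ℝ) / Q * (1 / p) + 1) = N / Q * ∑ p ∈ P, (1 : ℝ) / p + P.card := by
    rw [Finset.sum_add_distrib, ← Finset.mul_sum, Finset.sum_const, nsmul_eq_mul, mul_one]
  rw [h5] at h2
  have h6 : (N : ℝ) / Q * ∑ p ∈ P, (1 : ℝ) / p ≤ N / Q * (ε / 2) :=
    mul_le_mul_of_nonneg_left h3 hNQ
  have h7 : (N : ℝ) * (ε / (4 * Q)) = ε * (N / Q) / 4 := by field_simp
  have h8 : (N : ℝ) / Q * (ε / 2) = ε * (N / Q) / 2 := by ring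
  rw [h7] at h4 hN'
  linarith

end Pool.Agent.H239.MA
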