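import Pool.Agent.H239.MA.Proj
import Pool.Agent.H239.MA.Dens

/-! Positivity of the projections onto the invariant vectors; recurrence for a unitary. -/

set_option autoImplicit false
set_option linter.unusedSectionVars false

namespace Pool.Agent.H239.MA

open Finset Filter Topology MeasureTheory
open scoped InnerProductSpace ENNReal
open Pool.Agent.K7.H83.MA

section

variable {H : Type*} [NormedAddCommGroup H] [InnerProductSpace ℂ H]

/-- a unitary which fixes a vector correlated with `h` has a power with positive correlation -/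
theorem recur (V : H →L[ℂ] H) (hV : ∀ x y, ⟪V x, V y⟫_ℂ = ⟪x, y⟫_ℂ) {e h : H} (he : V e = e)
    (he1 : ‖e‖ ≤ 1) (hh : ‖h‖ ≤ 1) {δ : ℝ} (hδ : 0 < δ) (hδ1 : ⟪e, h⟫_ℂ = (δ : ℂ)) :
    ∃ l : ℕ, 0 < l ∧ δ ^ 2 / 2 ≤ (⟪h, (V ^ l) h⟫_ℂ).re := by
  by_contra hcon
  push Not at hcon
  set S : ℕ → H := fun K => ∑ j ∈ Finset.range K, (V ^ j) h with hS
  have hrec : ∀ K, S (K + 1) = h + V (S K) := by
    intro K
    rw [hS]
    simp only
    rw [Finset.sum_range_succ', map_sum, add_comm]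
    congr 1
    refine Finset.sum_congr rfl fun j _ => ?_
    rw [pow_succ']; rfl
  have hVn : ∀ x, ‖V x‖ = ‖x‖ := by
    intro x
    have h1 := inner_self_eq_norm_sq (𝕜 := ℂ) (V x)
    have h2 := inner_self_eq_norm_sq (𝕜 := ℂ) x
    rw [hV] at h1
    have h3 : ‖V x‖ ^ 2 = ‖x‖ ^ 2 := by rw [← h1, ← h2]
    exact (sq_eq_sq₀ (norm_nonneg _) (norm_nonneg _)).1 h3
  have hin : ∀ K, ⟪e, S K⟫_ℂ = (K : ℂ) * δ := by
    intro K
    induction K with
    | zero => rw [hS]; simp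
    | succ K ih =>
      rw [hrec, inner_add_right, hδ1]
      have h1 : ⟪e, V (S K)⟫_ℂ = ⟪e, S K⟫_ℂ := by
        conv_lhs => rw [← he]
        exact hV _ _
      rw [h1, ih]
      push_cast
      ring
  have hsq : ∀ K : ℕ, ‖S K‖ ^ 2 ≤ K + K ^ 2 * (δ ^ 2 / 2) := by
    intro K
    induction K with
    | zero => rw [hS]; simp
    | succ K ih =>
      rw [hrec]
      have h1 := norm_add_sq (𝕜 := ℂ) h (V (S K))
      rw [hVn] at h1
      have h2 : (⟪h, V (S K)⟫_ℂ).re ≤ K * (δ ^ 2 / 2) := by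
        rw [hS]
        simp only
        rw [map_sum, inner_sum, Complex.re_sum]
        have h3 : ∀ j ∈ Finset.range K, (⟪h, V ((V ^ j) h)⟫_ℂ).re ≤ δ ^ 2 / 2 := by
          intro j _
          have h4 : V ((V ^ j) h) = (V ^ (j + 1)) h := by rw [pow_succ']; rfl
          rw [h4]
          exact (hcon (j + 1) (Nat.succ_pos j)).le
        refine (Finset.sum_le_sum h3).trans (le_of_eq ?_)
        rw [Finset.sum_const, Finset.card_range, nsmul_eq_mul]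
      have h3 : RCLike.re ⟪h, V (S K)⟫_ℂ = (⟪h, V (S K)⟫_ℂ).re := rfl
      rw [h3] at h1
      rw [h1]
      have h4 : ‖h‖ ^ 2 ≤ 1 := pow_le_one₀ (norm_nonneg _) hh
      push_cast
      have h5 : (0 : ℝ) ≤ δ ^ 2 / 2 := by positivity
      nlinarith
  have hlow : ∀ K : ℕ, (K : ℝ) ^ 2 * δ ^ 2 ≤ K + K ^ 2 * (δ ^ 2 / 2) := by
    intro K
    refine le_trans ?_ (hsq K)
    have h1 := norm_inner_le_norm (𝕜 := ℂ) e (S K)
    rw [hin, norm_mul, Complex.norm_natCast, Complex.norm_real, Real.norm_of_nonneg hδ.le] at h1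
    have h2 : (K : ℝ) * δ ≤ ‖S K‖ := h1.trans (by
      calc ‖e‖ * ‖S K‖ ≤ 1 * ‖S K‖ := mul_le_mul_of_nonneg_right he1 (norm_nonneg _)
        _ = ‖S K‖ := one_mul _)
    rw [← mul_pow]
    exact pow_le_pow_left₀ (by positivity) h2 2
  obtain ⟨K, hK⟩ := exists_nat_gt (2 / δ ^ 2)
  rw [div_lt_iff₀ (by positivity)] at hK
  have h1 := hlow K
  have hK0 : (0 : ℝ) < K := by
    by_contra h2
    have h3 : (K : ℝ) * δ ^ 2 ≤ 0 := mul_nonpos_of_nonpos_of_nonneg (not_lt.1 h2) (by positivity)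
    linarith
  nlinarith

end

variable {X : Type*} [MeasurableSpace X] [StandardBorelSpace X] {μ : Measure X}
  [IsProbabilityMeasure μ]
variable {r : ℕ} {c : ℕ → Fin r} {T : ℕ → X → X} {q : Fin r → ℕ}

theorem koop_cx (h : Sys c μ T) {n : ℕ} (hn : 0 < n) {g : X → ℝ} (hg : UM g) :
    koop μ T n (bl μ (cx g)) = bl μ (cx fun x => g (T n x)) := by
  rw [koop_bl (h.mp n hn) hg.bm]
  rfl

theorem inner_nonneg {f g : X → ℝ} (hf : UM f) (hg : UM g) :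
    0 ≤ (⟪bl μ (cx f), bl μ (cx g)⟫_ℂ).re := by
  rw [inner_cx hf hg, Complex.ofReal_re]
  exact integral_nonneg fun x => mul_nonneg (hf.2.1 x) (hg.2.1 x)

/-- the projection preserves positivity -/
theorem PI_nonneg (h : Sys c μ T) {Q : ℕ} (hQ : 0 < Q) {π : Fin r → ℕ} (hπ : Rep c π)
    {f g : X → ℝ} (hf : UM f) (hg : UM g) :
    0 ≤ (⟪bl μ (cx f), PI (koop μ T) (qq c Q π) (bl μ (cx g))⟫_ℂ).re := by
  obtain ⟨d, hseq⟩ := seq_lab c Q hπ 1 0
  have hd : 0 < d := dens_pos c Q hQ hseq.dens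
  have h1 := mean_erg h.FG hseq (inv_lab c Q hQ hπ 1 0 h.FG) (bl μ (cx g))
  have h2 : Tendsto (fun N => (⟪bl μ (cx f), avg (koop μ T) (fun N => lab c Q N 1 0)
      (rr c Q π) N (bl μ (cx g))⟫_ℂ).re) atTop
      (𝓝 (⟪bl μ (cx f), (d : ℂ) • PI (koop μ T) (qq c Q π) (bl μ (cx g))⟫_ℂ).re) :=
    (Complex.continuous_re.tendsto _).comp (tendsto_const_nhds.inner h1)
  have h3 : 0 ≤ (⟪bl μ (cx f), (d : ℂ) • PI (koop μ T) (qq c Q π) (bl μ (cx g))⟫_ℂ).re := by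
    refine ge_of_tendsto' h2 fun N => ?_
    unfold avg
    rw [_root_.smul_apply, _root_.sum_apply, inner_smul_right, inner_sum]
    have h4 : ((N : ℂ)⁻¹) = (((N : ℝ)⁻¹ : ℝ) : ℂ) := by push_cast; rfl
    rw [h4, Complex.re_ofReal_mul, Complex.re_sum]
    refine mul_nonneg (by positivity) (Finset.sum_nonneg fun n _ => ?_)
    rw [koop_cx h (hseq.pos n) hg]
    exact inner_nonneg hf (hg.comp (h.mp _ (hseq.pos n)).measurable)
  rw [inner_smul_right, Complex.re_ofReal_mul] at h3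
  exact (mul_nonneg_iff_of_pos_left hd).1 h3

theorem qq_pos (Q : ℕ) {π : Fin r → ℕ} (hπ : Rep c π) (i : Fin r) : 0 < qq c Q π i := by
  obtain ⟨d, hseq⟩ := seq_lab c Q hπ 1 0
  exact hseq.qpos i

theorem PI_one (h : Sys c μ T) (hq : ∀ i, 0 < q i) :
    PI (koop μ T) q (bl μ (cx fun _ : X => (1 : ℝ))) = bl μ (cx fun _ : X => (1 : ℝ)) := by
  refine PI_of_mem ?_
  rw [mem_IV]
  intro i
  rw [koop_cx h (hq i) UM.one]

theorem one_sub_mul {φ G : X → ℝ} (hφ : UM φ) (hG : UM G) : UM (fun x => (1 - φ x) * G x) :=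
  ⟨(measurable_const.sub hφ.1).mul hG.1, fun x => mul_nonneg (by linarith [hφ.2.2 x]) (hG.2.1 x),
    fun x => mul_le_one₀ (by linarith [hφ.2.1 x]) (hG.2.1 x) (hG.2.2 x)⟩

theorem split_mul {φ G : X → ℝ} (hφ : UM φ) (hG : UM G) :
    bl μ (cx G) = bl μ (cx fun x => φ x * G x) + bl μ (cx fun x => (1 - φ x) * G x) := by
  rw [← bl_add (hφ.mul hG).bm (one_sub_mul hφ hG).bm]
  congr 1
  funext x
  unfold cx
  push_cast
  ring

/-- the basic lower bound -/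
theorem PI_low (h : Sys c μ T) {Q : ℕ} (hQ : 0 < Q) {π : Fin r → ℕ} (hπ : Rep c π)
    {φ G : X → ℝ} (hφ : UM φ) (hG : UM G) :
    (∫ x, φ x * G x ∂μ) ^ 2 ≤
      (⟪bl μ (cx fun x => φ x * G x), PI (koop μ T) (qq c Q π) (bl μ (cx G))⟫_ℂ).re := by
  have hf := hφ.mul hG
  rw [split_mul hφ hG, map_add, inner_add_right, Complex.add_re]
  have h1 := PI_nonneg h hQ hπ hf (one_sub_mul hφ hG) (μ := μ)
  have h2 : (∫ x, φ x * G x ∂μ) ^ 2 ≤ (⟪bl μ (cx fun x => φ x * G x),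
      PI (koop μ T) (qq c Q π) (bl μ (cx fun x => φ x * G x))⟫_ℂ).re := by
    have hq := qq_pos (c := c) Q hπ
    set P := PI (koop μ T) (qq c Q π) (bl μ (cx fun x => φ x * G x)) with hP
    have h3 : ⟪bl μ (cx fun x => φ x * G x), P⟫_ℂ = ⟪P, P⟫_ℂ := by
      rw [hP, PI_self, PI_of_mem (PI_mem _ _)]
    have h4 : ⟪bl μ (cx fun _ : X => (1 : ℝ)), P⟫_ℂ = ((∫ x, φ x * G x ∂μ : ℝ) : ℂ) := by
      rw [hP, ← PI_self, PI_one h hq, inner_one hf]
    have h5 := norm_inner_le_norm (𝕜 := ℂ) (bl μ (cx fun _ : X => (1 : ℝ))) P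
    rw [h4, Complex.norm_real, Real.norm_eq_abs] at h5
    have h6 : ‖bl μ (cx fun _ : X => (1 : ℝ))‖ ≤ 1 := UM.one.norm
    have h7 : |∫ x, φ x * G x ∂μ| ≤ ‖P‖ :=
      h5.trans ((mul_le_mul_of_nonneg_right h6 (norm_nonneg _)).trans (one_mul _).le)
    have h8 := inner_self_eq_norm_sq (𝕜 := ℂ) P
    have h9 : (⟪P, P⟫_ℂ).re = ‖P‖ ^ 2 := h8
    rw [h3, h9, ← sq_abs]
    exact pow_le_pow_left₀ (abs_nonneg _) h7 2
  linarith

theorem koop_inner (h : Sys c μ T) {n : ℕ} (hn : 0 < n) (f g : Lp ℂ 2 μ) :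
    ⟪koop μ T n f, koop μ T n g⟫_ℂ = ⟪f, g⟫_ℂ := by
  have h5 : star (koop μ T n) * koop μ T n = 1 := Unitary.star_mul_self_of_mem (h.FG.uni n hn)
  rw [← ContinuousLinearMap.adjoint_inner_right]
  have h6 : (ContinuousLinearMap.adjoint (koop μ T n)) (koop μ T n g) =
      (star (koop μ T n) * koop μ T n) g := rfl
  rw [h6, h5]; rfl

/-- the choice of the power -/
theorem exists_pow (h : Sys c μ T) {π : Fin r → ℕ} (hπ : Rep c π) {φ a : X → ℝ} (hφ : UM φ)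
    (ha : UM a) (hδ : 0 < ∫ x, φ x * a x ∂μ) {Q : ℕ} (hQ : 0 < Q) : ∃ l : ℕ, 0 < l ∧
      (∫ x, φ x * a x ∂μ) ^ 2 / 2 ≤ (⟪bl μ (cx fun x => φ x * a x),
        koop μ T (Q ^ l) (PI (koop μ T) (qq c 1 π) (bl μ (cx a)))⟫_ℂ).re := by
  have hq := qq_pos (c := c) 1 hπ
  have hf := hφ.mul ha
  set f := bl μ (cx fun x => φ x * a x) with hfd
  set P := PI (koop μ T) (qq c 1 π) f with hP
  obtain ⟨l, hl, h1⟩ := recur (koop μ T Q) (koop_inner h hQ)
    (e := bl μ (cx fun _ : X => (1 : ℝ))) (h := P) (koop_cx h hQ UM.one) UM.one.norm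
    ((PI_norm _ _).trans hf.norm) hδ (by rw [hP, ← PI_self, PI_one h hq, inner_one hf])
  refine ⟨l, hl, h1.trans ?_⟩
  have hQl : 0 < Q ^ l := pow_pos hQ l
  rw [← h.FG.pow hQ l]
  have h2 : bl μ (cx a) = f + bl μ (cx fun x => (1 - φ x) * a x) := split_mul hφ ha
  rw [h2, map_add, map_add, inner_add_right, Complex.add_re]
  have h3 : ⟪f, koop μ T (Q ^ l) (PI (koop μ T) (qq c 1 π) f)⟫_ℂ = ⟪P, koop μ T (Q ^ l) P⟫_ℂ := by
    have h4 : koop μ T (Q ^ l) P = PI (koop μ T) (qq c 1 π) (koop μ T (Q ^ l) f) := by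
      rw [PI_comm h.FG hq hQl]
    have h5 : PI (koop μ T) (qq c 1 π) P = P := PI_of_mem (PI_mem _ _)
    rw [← hP, h4, ← PI_self, ← PI_self, h5]
  have h5 : 0 ≤ (⟪f, koop μ T (Q ^ l) (PI (koop μ T) (qq c 1 π)
      (bl μ (cx fun x => (1 - φ x) * a x)))⟫_ℂ).re := by
    rw [← PI_comm h.FG hq hQl, koop_cx h hQl (one_sub_mul hφ ha)]
    exact PI_nonneg h one_pos hπ hf ((one_sub_mul hφ ha).comp (h.mp _ hQl).measurable)
  rw [h3]
  linarith

end Pool.Agent.H239.MA
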