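import Pool.Agent.H239.MA.Ape2
import Pool.Graph.R_pool_sql_team_seeded_35f281b4.K7.H83.MA.Main

/-! The projection onto the closure of the space of the vectors `NS` preserves the functions with
values in the unit interval. -/

set_option autoImplicit false
set_option linter.unusedSectionVars false

namespace Pool.Agent.H239.MA

open Finset Filter Topology MeasureTheory
open scoped InnerProductSpace ENNReal
open Pool.Agent.K7.H83.MA

section

variable {H : Type*} [NormedAddCommGroup H] [InnerProductSpace ℂ H] [CompleteSpace H]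

theorem NS.zero (u : ℕ → H →L[ℂ] H) : NS u (0 : H) := by
  classical
  intro ε hε
  refine ⟨1, one_pos, fun Q hQ _ => ⟨0, fun N _ => ?_⟩⟩
  have : ((Ioc 0 N).filter fun k => k ≡ 1 [MOD Q] ∧ u k (0 : H) ≠ 0) = ∅ := by
    rw [Finset.filter_eq_empty_iff]
    rintro k _ ⟨_, h2⟩
    exact h2 (map_zero _)
  have h2 : (((Ioc 0 N).filter fun k => k ≡ 1 [MOD Q] ∧ u k (0 : H) ≠ 0).card : ℝ) = 0 := by
    rw [this]; simp
  refine (le_of_eq ?_).trans (by positivity : (0 : ℝ) ≤ ε * (N / Q))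
  convert h2

theorem NS.mono {u : ℕ → H →L[ℂ] H} {y z : H} (hy : NS u y) (h : ∀ k, 0 < k → u k y = y → u k z = z) :
    NS u z := by
  classical
  intro ε hε
  obtain ⟨Q₀, hQ₀, h1⟩ := hy ε hε
  refine ⟨Q₀, hQ₀, fun Q hQ hd => ?_⟩
  obtain ⟨N₀, h2⟩ := h1 Q hQ hd
  refine ⟨N₀, fun N hN => le_trans ?_ (h2 N hN)⟩
  refine Nat.cast_le.2 (Finset.card_le_card fun k hk => ?_)
  rw [mem_filter] at hk ⊢
  exact ⟨hk.1, hk.2.1, fun h3 => hk.2.2 (h k (mem_Ioc.1 hk.1).1 h3)⟩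

theorem NS.add {u : ℕ → H →L[ℂ] H} {y z : H} (hy : NS u y) (hz : NS u z) : NS u (y + z) := by
  classical
  intro ε hε
  obtain ⟨Q₁, hQ₁, h1⟩ := hy (ε / 2) (by positivity)
  obtain ⟨Q₂, hQ₂, h2⟩ := hz (ε / 2) (by positivity)
  refine ⟨Q₁ * Q₂, Nat.mul_pos hQ₁ hQ₂, fun Q hQ hd => ?_⟩
  obtain ⟨N₁, h3⟩ := h1 Q hQ ((Dvd.intro _ rfl).trans hd)
  obtain ⟨N₂, h4⟩ := h2 Q hQ ((Dvd.intro_left _ rfl).trans hd)
  refine ⟨max N₁ N₂, fun N hN => ?_⟩
  have h5 := h3 N ((le_max_left _ _).trans hN)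
  have h6 := h4 N ((le_max_right _ _).trans hN)
  have h7 : ((Ioc 0 N).filter fun k => k ≡ 1 [MOD Q] ∧ u k (y + z) ≠ y + z) ⊆
      ((Ioc 0 N).filter fun k => k ≡ 1 [MOD Q] ∧ u k y ≠ y) ∪
      ((Ioc 0 N).filter fun k => k ≡ 1 [MOD Q] ∧ u k z ≠ z) := by
    intro k hk
    rw [mem_union, mem_filter, mem_filter]
    rw [mem_filter] at hk
    by_cases h8 : u k y = y
    · right
      refine ⟨hk.1, hk.2.1, fun h9 => hk.2.2 ?_⟩
      rw [map_add, h8, h9]
    · exact Or.inl ⟨hk.1, hk.2.1, h8⟩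
  have h8 := (Finset.card_le_card h7).trans (Finset.card_union_le _ _)
  have h9 : (((Ioc 0 N).filter fun k => k ≡ 1 [MOD Q] ∧ u k (y + z) ≠ y + z).card : ℝ) ≤
      (((Ioc 0 N).filter fun k => k ≡ 1 [MOD Q] ∧ u k y ≠ y).card : ℝ) +
      (((Ioc 0 N).filter fun k => k ≡ 1 [MOD Q] ∧ u k z ≠ z).card : ℝ) := by exact_mod_cast h8
  have h10 : ε / 2 * ((N : ℝ) / Q) + ε / 2 * ((N : ℝ) / Q) = ε * (N / Q) := by ring
  linarith

/-- the space of the vectors `NS` -/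
def M0 (u : ℕ → H →L[ℂ] H) : Submodule ℂ H where
  carrier := {y | NS u y}
  add_mem' := fun hy hz => NS.add hy hz
  zero_mem' := NS.zero u
  smul_mem' := fun a y hy => NS.mono hy fun k _ h => by rw [map_smul, h]

theorem mem_M0 {u : ℕ → H →L[ℂ] H} {y : H} : y ∈ M0 u ↔ NS u y := Iff.rfl

end

/-- the clamp -/
noncomputable def cl (z : ℂ) : ℂ := ((max 0 (min 1 z.re) : ℝ) : ℂ)

theorem cl_lip : LipschitzWith 1 cl := by
  refine LipschitzWith.of_dist_le_mul fun z w => ?_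
  rw [NNReal.coe_one, one_mul]
  unfold cl
  rw [Complex.dist_of_im_eq (by simp)]
  simp only [Complex.ofReal_re]
  rw [Real.dist_eq, max_comm 0, max_comm 0]
  refine (abs_max_sub_max_le_abs _ _ _).trans ?_
  refine (abs_min_sub_min_le_max _ _ _ _).trans ?_
  rw [sub_self, abs_zero, max_eq_right (abs_nonneg _), ← Complex.sub_re, dist_eq_norm]
  exact Complex.abs_re_le_norm _

theorem cl_zero : cl 0 = 0 := by unfold cl; simp

theorem cl_of {t : ℝ} (h0 : 0 ≤ t) (h1 : t ≤ 1) : cl (t : ℂ) = t := by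
  unfold cl
  rw [Complex.ofReal_re, min_eq_right h1, max_eq_right h0]

/-- measurable functions with values in the unit interval -/
def UM {X : Type*} [MeasurableSpace X] (g : X → ℝ) : Prop :=
  Measurable g ∧ (∀ x, 0 ≤ g x) ∧ ∀ x, g x ≤ 1

section

variable {X : Type*} [MeasurableSpace X] {μ : Measure X} [IsProbabilityMeasure μ]

/-- the function as a complex function -/
def cx (g : X → ℝ) : X → ℂ := fun x => (g x : ℂ)

theorem UM.bm {g : X → ℝ} (hg : UM g) : BM (cx g) :=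
  ⟨Complex.measurable_ofReal.comp hg.1, 1, zero_le_one, fun x => by
    unfold cx
    rw [Complex.norm_real, Real.norm_of_nonneg (hg.2.1 x)]; exact hg.2.2 x⟩

theorem UM.mul {f g : X → ℝ} (hf : UM f) (hg : UM g) : UM (fun x => f x * g x) :=
  ⟨hf.1.mul hg.1, fun x => mul_nonneg (hf.2.1 x) (hg.2.1 x), fun x =>
    mul_le_one₀ (hf.2.2 x) (hg.2.1 x) (hg.2.2 x)⟩

theorem UM.comp {f : X → ℝ} (hf : UM f) {S : X → X} (hS : Measurable S) :
    UM (fun x => f (S x)) := ⟨hf.1.comp hS, fun _ => hf.2.1 _, fun _ => hf.2.2 _⟩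

theorem UM.one : UM (fun _ : X => (1 : ℝ)) := ⟨measurable_const, fun _ => zero_le_one, fun _ => le_rfl⟩

theorem UM.norm {g : X → ℝ} (hg : UM g) : ‖bl μ (cx g)‖ ≤ 1 :=
  bl_norm_le hg.bm zero_le_one fun x => by
    unfold cx
    rw [Complex.norm_real, Real.norm_of_nonneg (hg.2.1 x)]; exact hg.2.2 x

theorem inner_cx {f g : X → ℝ} (hf : UM f) (hg : UM g) :
    ⟪bl μ (cx f), bl μ (cx g)⟫_ℂ = ((∫ x, f x * g x ∂μ : ℝ) : ℂ) := by
  rw [inner_bl hf.bm hg.bm, ← integral_complex_ofReal]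
  refine integral_congr_ae (Eventually.of_forall fun x => ?_)
  unfold cx
  beta_reduce
  rw [Complex.conj_ofReal]
  push_cast
  rfl

variable {r : ℕ} {c : ℕ → Fin r} {T : ℕ → X → X}

theorem koop_cl (h : Sys c μ T) {n : ℕ} (hn : 0 < n) (f : Lp ℂ 2 μ) :
    koop μ T n (cl_lip.compLp cl_zero f) = cl_lip.compLp cl_zero (koop μ T n f) := by
  apply Lp.ext
  filter_upwards [koop_coe (h.mp n hn) (cl_lip.compLp cl_zero f), koop_coe (h.mp n hn) f,
    cl_lip.coeFn_compLp cl_zero (koop μ T n f),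
    (h.mp n hn).quasiMeasurePreserving.ae (cl_lip.coeFn_compLp cl_zero f)] with x h1 h2 h3 h4
  rw [h1, h3, h4]
  simp only [Function.comp_apply]
  rw [h2]

theorem NS_cl (h : Sys c μ T) {f : Lp ℂ 2 μ} (hf : NS (koop μ T) f) :
    NS (koop μ T) (cl_lip.compLp cl_zero f) :=
  hf.mono fun k hk h1 => by rw [koop_cl h hk, h1]

theorem bl_cl {g : X → ℝ} (hg : UM g) :
    cl_lip.compLp cl_zero (bl μ (cx g)) = bl μ (cx g) := by
  apply Lp.ext
  filter_upwards [cl_lip.coeFn_compLp cl_zero (bl μ (cx g)), bl_coe hg.bm] with x h1 h2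
  rw [h1]
  simp only [Function.comp_apply]
  rw [h2]
  exact cl_of (hg.2.1 x) (hg.2.2 x)

/-- the projection of a function with values in the unit interval has values in the unit
interval -/
theorem exists_proj (h : Sys c μ T) {a : X → ℝ} (ha : UM a) : ∃ g : X → ℝ, UM g ∧
    (∀ ε : ℝ, 0 < ε → ∃ y, NS (koop μ T) y ∧ ‖bl μ (cx g) - y‖ ≤ ε) ∧
    ∀ y, NS (koop μ T) y → ⟪y, bl μ (cx a) - bl μ (cx g)⟫_ℂ = 0 := by
  set M : Submodule ℂ (Lp ℂ 2 μ) := (M0 (koop μ T)).topologicalClosure with hM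
  have hMc : CompleteSpace M := (M0 (koop μ T)).isClosed_topologicalClosure.completeSpace_coe
  set p : Lp ℂ 2 μ := M.starProjection (bl μ (cx a)) with hp
  have hpM : p ∈ M := M.starProjection_apply_mem _
  have horth : ∀ y ∈ M, ⟪y, bl μ (cx a) - p⟫_ℂ = 0 := fun y hy =>
    (Submodule.mem_orthogonal _ _).1 (M.sub_starProjection_mem_orthogonal (bl μ (cx a))) y hy
  -- the clamp of the projection
  set w : Lp ℂ 2 μ := cl_lip.compLp cl_zero p with hw
  have hwM : w ∈ M := by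
    have h1 : p ∈ closure (M0 (koop μ T) : Set (Lp ℂ 2 μ)) := by
      rw [← Submodule.topologicalClosure_coe]; exact hpM
    have h2 : w ∈ closure (M0 (koop μ T) : Set (Lp ℂ 2 μ)) :=
      map_mem_closure (cl_lip.continuous_compLp cl_zero) h1 fun y hy => NS_cl h hy
    rw [← Submodule.topologicalClosure_coe] at h2
    exact h2
  have hle : ‖bl μ (cx a) - w‖ ≤ ‖bl μ (cx a) - p‖ := by
    have h1 := cl_lip.norm_compLp_sub_le cl_zero (bl μ (cx a)) p
    rw [bl_cl ha, NNReal.coe_one, one_mul] at h1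
    exact h1
  have heq : w = p := by
    have h1 : ⟪p - w, bl μ (cx a) - p⟫_ℂ = 0 := horth _ (M.sub_mem hpM hwM)
    have h2 := norm_add_sq_eq_norm_sq_add_norm_sq_of_inner_eq_zero (𝕜 := ℂ) (p - w)
      (bl μ (cx a) - p) h1
    have h3 : p - w + (bl μ (cx a) - p) = bl μ (cx a) - w := by abel
    rw [h3] at h2
    have h4 : ‖p - w‖ = 0 := by
      have := norm_nonneg (p - w)
      have := norm_nonneg (bl μ (cx a) - w)
      nlinarith
    exact (sub_eq_zero.1 (norm_eq_zero.1 h4)).symm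
  -- the representative
  have hpm : Measurable (p : X → ℂ) := (Lp.stronglyMeasurable p).measurable
  set g : X → ℝ := fun x => max 0 (min 1 (p x).re) with hg
  have hgU : UM g := ⟨measurable_const.max (measurable_const.min (Complex.measurable_re.comp hpm)),
    fun x => le_max_left _ _, fun x => max_le zero_le_one (min_le_left _ _)⟩
  have hgp : bl μ (cx g) = p := by
    rw [← heq]
    apply Lp.ext
    filter_upwards [bl_coe hgU.bm, cl_lip.coeFn_compLp cl_zero p] with x h1 h2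
    rw [h1, h2]
    rfl
  refine ⟨g, hgU, fun ε hε => ?_, fun y hy => ?_⟩
  · rw [hgp]
    have h1 : p ∈ closure (M0 (koop μ T) : Set (Lp ℂ 2 μ)) := by
      rw [← Submodule.topologicalClosure_coe]; exact hpM
    obtain ⟨y, hy, hyd⟩ := Metric.mem_closure_iff.1 h1 ε hε
    exact ⟨y, hy, by rw [← dist_eq_norm]; exact hyd.le⟩
  · rw [hgp]
    exact horth y ((M0 (koop μ T)).le_topologicalClosure hy)

theorem NS_one (h : Sys c μ T) : NS (koop μ T) (bl μ (cx fun _ : X => (1 : ℝ))) := by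
  refine (NS.zero (koop μ T)).mono fun k hk _ => ?_
  rw [koop_bl (h.mp k hk) UM.one.bm]
  rfl

theorem inner_one {g : X → ℝ} (hg : UM g) :
    ⟪bl μ (cx fun _ : X => (1 : ℝ)), bl μ (cx g)⟫_ℂ = ((∫ x, g x ∂μ : ℝ) : ℂ) := by
  rw [inner_cx UM.one hg]
  simp only [one_mul]

/-- the correlation of the function with its projection -/
theorem proj_corr (h : Sys c μ T) {a g : X → ℝ} (ha : UM a) (hg : UM g)
    (hg1 : ∀ ε : ℝ, 0 < ε → ∃ y, NS (koop μ T) y ∧ ‖bl μ (cx g) - y‖ ≤ ε)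
    (hg2 : ∀ y, NS (koop μ T) y → ⟪y, bl μ (cx a) - bl μ (cx g)⟫_ℂ = 0) :
    (∫ x, a x ∂μ) ^ 2 ≤ ∫ x, g x * a x ∂μ := by
  -- orthogonality to the projection itself
  have h1 : ⟪bl μ (cx g), bl μ (cx a) - bl μ (cx g)⟫_ℂ = 0 := by
    by_contra hne
    have hpos : 0 < ‖⟪bl μ (cx g), bl μ (cx a) - bl μ (cx g)⟫_ℂ‖ := norm_pos_iff.2 hne
    set D := ‖bl μ (cx a) - bl μ (cx g)‖ with hD
    have hD0 : 0 ≤ D := norm_nonneg _
    obtain ⟨y, hy, hyd⟩ := hg1 (‖⟪bl μ (cx g), bl μ (cx a) - bl μ (cx g)⟫_ℂ‖ / (2 * (D + 1)))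
      (by positivity)
    have h2 : ⟪bl μ (cx g), bl μ (cx a) - bl μ (cx g)⟫_ℂ =
        ⟪bl μ (cx g) - y, bl μ (cx a) - bl μ (cx g)⟫_ℂ := by
      rw [inner_sub_left (bl μ (cx g)) y, hg2 y hy, sub_zero]
    have h3 : ‖⟪bl μ (cx g), bl μ (cx a) - bl μ (cx g)⟫_ℂ‖ ≤
        ‖⟪bl μ (cx g), bl μ (cx a) - bl μ (cx g)⟫_ℂ‖ / (2 * (D + 1)) * D := by
      conv_lhs => rw [h2]
      exact (norm_inner_le_norm _ _).trans (mul_le_mul_of_nonneg_right hyd hD0)
    rw [div_mul_eq_mul_div, le_div_iff₀ (by positivity)] at h3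
    nlinarith
  have h2 := hg2 _ (NS_one h)
  rw [inner_sub_right, sub_eq_zero] at h1 h2
  rw [inner_one ha, inner_one hg] at h2
  rw [inner_cx hg ha, inner_cx hg hg] at h1
  have h3 : ∫ x, a x ∂μ = ∫ x, g x ∂μ := by exact_mod_cast h2
  have h4 : ∫ x, g x * a x ∂μ = ∫ x, g x * g x ∂μ := by exact_mod_cast h1
  rw [h3, h4]
  -- Cauchy-Schwarz
  have h5 : ‖⟪bl μ (cx fun _ : X => (1 : ℝ)), bl μ (cx g)⟫_ℂ‖ ≤
      ‖bl μ (cx fun _ : X => (1 : ℝ))‖ * ‖bl μ (cx g)‖ := norm_inner_le_norm _ _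
  have h6 : ‖bl μ (cx fun _ : X => (1 : ℝ))‖ ≤ 1 := UM.one.norm
  have h7 : ‖bl μ (cx g)‖ ^ 2 = ∫ x, g x * g x ∂μ := by
    have h8 := inner_self_eq_norm_sq (𝕜 := ℂ) (bl μ (cx g))
    rw [inner_cx hg hg] at h8
    exact h8.symm
  rw [inner_one hg, Complex.norm_real, Real.norm_eq_abs] at h5
  rw [← h7, ← sq_abs]
  have h9 : |∫ x, g x ∂μ| ≤ ‖bl μ (cx g)‖ :=
    h5.trans ((mul_le_mul_of_nonneg_right h6 (norm_nonneg _)).trans (one_mul _).le)
  exact pow_le_pow_left₀ (abs_nonneg _) h9 2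

end

end Pool.Agent.H239.MA
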